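/-
MP_0cd485_RE : models of ZF with an elementary self-map, formulas, definability.
-/
import Mathlib

set_option autoImplicit false

namespace Pool.Agent.H46.RE

universe u

/-- Formulas (de Bruijn form) of the language `{∈, C, j}`: `cl i` says that `x_i` belongs to the class `C`
and `fn i k` says `j(x_i) = x_k`. In `all φ` the quantified variable is `x_0` of `φ`. -/
inductive Fml : Type
  | mem (i k : ℕ)
  | eq (i k : ℕ)
  | cl (i : ℕ)
  | fn (i k : ℕ)
  | neg (φ : Fml)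
  | and (φ ψ : Fml)
  | all (φ : Fml)

variable {M : Type u}

/-- `x, v 0, v 1, …` -/
def cons (x : M) (v : ℕ → M) : ℕ → M
  | 0 => x
  | k + 1 => v k

@[simp] lemma cons_zero (x : M) (v : ℕ → M) : cons x v 0 = x := rfl
@[simp] lemma cons_succ (x : M) (v : ℕ → M) (k : ℕ) : cons x v (k + 1) = v k := rfl

/-- Satisfaction of a formula in the structure `(M, E, C, J)` (`J` is the graph of `j`). -/
def Sat (E : M → M → Prop) (C : M → Prop) (J : M → M → Prop) : Fml → (ℕ → M) → Prop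
  | .mem i k, v => E (v i) (v k)
  | .eq i k, v => v i = v k
  | .cl i, v => C (v i)
  | .fn i k, v => J (v i) (v k)
  | .neg φ, v => ¬ Sat E C J φ v
  | .and φ ψ, v => Sat E C J φ v ∧ Sat E C J ψ v
  | .all φ, v => ∀ x, Sat E C J φ (cons x v)

/-- `(M, E, C, J)` is a model of ZF, where Separation and Replacement are required for all formulas of
`{∈, C, j}` (with parameters). -/
structure ZF (E : M → M → Prop) (C : M → Prop) (J : M → M → Prop) : Prop where
  ext : ∀ x y, (∀ z, E z x ↔ E z y) → x = y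
  pair : ∀ x y, ∃ z, ∀ w, E w z ↔ w = x ∨ w = y
  union : ∀ x, ∃ z, ∀ w, E w z ↔ ∃ y, E y x ∧ E w y
  power : ∀ x, ∃ z, ∀ w, E w z ↔ ∀ y, E y w → E y x
  infinity : ∃ z, (∃ e, E e z ∧ ∀ w, ¬ E w e) ∧ ∀ x, E x z → ∃ y, E y z ∧ ∀ w, E w y ↔ E w x ∨ w = x
  foundation : ∀ x, (∃ y, E y x) → ∃ y, E y x ∧ ∀ z, E z y → ¬ E z x
  separation : ∀ (φ : Fml) (v : ℕ → M) (a : M), ∃ b, ∀ x, E x b ↔ E x a ∧ Sat E C J φ (cons x v)
  replacement : ∀ (φ : Fml) (v : ℕ → M) (a : M),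
    (∀ x, E x a → ∃! y, Sat E C J φ (cons x (cons y v))) →
    ∃ b, ∀ y, E y b ↔ ∃ x, E x a ∧ Sat E C J φ (cons x (cons y v))

/-- `j` is an elementary embedding of `(M, E)` into itself: the scheme for all formulas of `{∈}` (the
symbols `cl` and `fn` are interpreted by the empty relations, so all formulas are formulas of `{∈}`). -/
def Elem (E : M → M → Prop) (j : M → M) : Prop :=
  ∀ (φ : Fml) (v : ℕ → M), Sat E (fun _ => False) (fun _ _ => False) φ v ↔
    Sat E (fun _ => False) (fun _ _ => False) φ (fun n => j (v n))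

/-- the class `j(X)`: the union of the sets `j(X ∩ a)`, `a` a set -/
def ImgCl (E : M → M → Prop) (j : M → M) (X : M → Prop) (y : M) : Prop :=
  ∃ a b, (∀ x, E x b ↔ E x a ∧ X x) ∧ E y (j b)

/-- ZF with the foundation and collection schemes (it follows from `ZF`, see Ax.lean). -/
structure ZFModel (E : M → M → Prop) (C : M → Prop) (J : M → M → Prop) : Prop where
  ext : ∀ x y, (∀ z, E z x ↔ E z y) → x = y
  pair : ∀ x y, ∃ z, ∀ w, E w z ↔ w = x ∨ w = y
  union : ∀ x, ∃ z, ∀ w, E w z ↔ ∃ y, E y x ∧ E w y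
  power : ∀ x, ∃ z, ∀ w, E w z ↔ ∀ y, E y w → E y x
  infinity : ∃ z, (∃ e, E e z ∧ ∀ w, ¬ E w e) ∧ ∀ x, E x z → ∃ y, E y z ∧ ∀ w, E w y ↔ E w x ∨ w = x
  found : ∀ (φ : Fml) (v : ℕ → M), (∃ x, Sat E C J φ (cons x v)) →
    ∃ x, Sat E C J φ (cons x v) ∧ ∀ y, E y x → ¬ Sat E C J φ (cons y v)
  sep : ∀ (φ : Fml) (v : ℕ → M) (a : M), ∃ b, ∀ x, E x b ↔ E x a ∧ Sat E C J φ (cons x v)
  coll : ∀ (φ : Fml) (v : ℕ → M) (a : M),
    (∀ x, E x a → ∃ y, Sat E C J φ (cons x (cons y v))) →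
    ∃ b, ∀ x, E x a → ∃ y, E y b ∧ Sat E C J φ (cons x (cons y v))

/-- Uniform parameter-free definability in a family of structures `(M, E, U k, J k)`. -/
def Df (E : M → M → Prop) {K : Type*} (U : K → M → Prop) (J : K → M → M → Prop)
    (P : K → (ℕ → M) → Prop) : Prop := ∃ φ : Fml, ∀ k v, Sat E (U k) (J k) φ v ↔ P k v

section Closure

/-- lifting a renaming under a quantifier -/
def lift (σ : ℕ → ℕ) : ℕ → ℕ
  | 0 => 0
  | k + 1 => σ k + 1

/-- renaming of variables -/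
def Fml.ren : Fml → (ℕ → ℕ) → Fml
  | .mem i k, σ => .mem (σ i) (σ k)
  | .eq i k, σ => .eq (σ i) (σ k)
  | .cl i, σ => .cl (σ i)
  | .fn i k, σ => .fn (σ i) (σ k)
  | .neg φ, σ => .neg (φ.ren σ)
  | .and φ ψ, σ => .and (φ.ren σ) (ψ.ren σ)
  | .all φ, σ => .all (φ.ren (lift σ))

lemma Sat_ren (E : M → M → Prop) (C : M → Prop) (J : M → M → Prop) (φ : Fml) :
    ∀ (σ : ℕ → ℕ) (v : ℕ → M), Sat E C J (φ.ren σ) v ↔ Sat E C J φ (fun n => v (σ n)) := by
  induction φ with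
  | mem i k => intro σ v; rfl
  | eq i k => intro σ v; rfl
  | cl i => intro σ v; rfl
  | fn i k => intro σ v; rfl
  | neg φ ih => intro σ v; exact not_congr (ih σ v)
  | and φ ψ ih ih' => intro σ v; exact and_congr (ih σ v) (ih' σ v)
  | all φ ih =>
    intro σ v
    refine forall_congr' fun x => ?_
    rw [ih]
    have : (fun n => cons x v (lift σ n)) = cons x (fun n => v (σ n)) := by
      funext n; cases n <;> rfl
    rw [this]

variable {E : M → M → Prop} {K : Type*} {U : K → M → Prop} {J : K → M → M → Prop}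

namespace Df

lemma mem (i k : ℕ) : Df E U J (fun _ v => E (v i) (v k)) := ⟨.mem i k, fun _ _ => Iff.rfl⟩
lemma eq (i k : ℕ) : Df E U J (fun _ v => v i = v k) := ⟨.eq i k, fun _ _ => Iff.rfl⟩
lemma cl (i : ℕ) : Df E U J (fun k v => U k (v i)) := ⟨.cl i, fun _ _ => Iff.rfl⟩
lemma fn (i k : ℕ) : Df E U J (fun κ v => J κ (v i) (v k)) := ⟨.fn i k, fun _ _ => Iff.rfl⟩

lemma congr {P Q : K → (ℕ → M) → Prop} (h : Df E U J P) (hPQ : ∀ k v, P k v ↔ Q k v) :
    Df E U J Q := by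
  obtain ⟨φ, hφ⟩ := h
  exact ⟨φ, fun k v => (hφ k v).trans (hPQ k v)⟩

lemma neg {P : K → (ℕ → M) → Prop} (h : Df E U J P) : Df E U J (fun k v => ¬ P k v) := by
  obtain ⟨φ, hφ⟩ := h
  exact ⟨.neg φ, fun k v => not_congr (hφ k v)⟩

lemma and {P Q : K → (ℕ → M) → Prop} (h : Df E U J P) (h' : Df E U J Q) :
    Df E U J (fun k v => P k v ∧ Q k v) := by
  obtain ⟨φ, hφ⟩ := h
  obtain ⟨ψ, hψ⟩ := h'
  exact ⟨.and φ ψ, fun k v => and_congr (hφ k v) (hψ k v)⟩

lemma or {P Q : K → (ℕ → M) → Prop} (h : Df E U J P) (h' : Df E U J Q) :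
    Df E U J (fun k v => P k v ∨ Q k v) :=
  (h.neg.and h'.neg).neg.congr fun k v => by tauto

lemma imp {P Q : K → (ℕ → M) → Prop} (h : Df E U J P) (h' : Df E U J Q) :
    Df E U J (fun k v => P k v → Q k v) :=
  (h.and h'.neg).neg.congr fun k v => by tauto

lemma iff {P Q : K → (ℕ → M) → Prop} (h : Df E U J P) (h' : Df E U J Q) :
    Df E U J (fun k v => P k v ↔ Q k v) :=
  ((h.imp h').and (h'.imp h)).congr fun k v => by tauto

lemma all {P : K → (ℕ → M) → M → Prop}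
    (h : Df E U J (fun k w => P k (fun n => w (n + 1)) (w 0))) :
    Df E U J (fun k v => ∀ x, P k v x) := by
  obtain ⟨φ, hφ⟩ := h
  exact ⟨.all φ, fun k v => forall_congr' fun x => hφ k (cons x v)⟩

lemma ex {P : K → (ℕ → M) → M → Prop}
    (h : Df E U J (fun k w => P k (fun n => w (n + 1)) (w 0))) :
    Df E U J (fun k v => ∃ x, P k v x) :=
  (Df.all (P := fun k v x => ¬ P k v x) h.neg).neg.congr fun k v => by
    simp

lemma ren {P : K → (ℕ → M) → Prop} (h : Df E U J P) (σ : ℕ → ℕ) :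
    Df E U J (fun k v => P k (fun n => v (σ n))) := by
  obtain ⟨φ, hφ⟩ := h
  exact ⟨φ.ren σ, fun k v => (Sat_ren E (U k) (J k) φ σ v).trans (hφ k _)⟩

/-- a unary definable predicate may be applied to any variable -/
lemma at1 {P : K → M → Prop} (h : Df E U J (fun k v => P k (v 0))) (i : ℕ) :
    Df E U J (fun k v => P k (v i)) := h.ren (fun _ => i)

lemma at2 {P : K → M → M → Prop} (h : Df E U J (fun k v => P k (v 0) (v 1))) (i j : ℕ) :
    Df E U J (fun k v => P k (v i) (v j)) := h.ren (fun n => if n = 0 then i else j)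

lemma at3 {P : K → M → M → M → Prop} (h : Df E U J (fun k v => P k (v 0) (v 1) (v 2)))
    (i j l : ℕ) : Df E U J (fun k v => P k (v i) (v j) (v l)) :=
  h.ren (fun n => if n = 0 then i else if n = 1 then j else l)

lemma at4 {P : K → M → M → M → M → Prop}
    (h : Df E U J (fun k v => P k (v 0) (v 1) (v 2) (v 3)))
    (i j l m : ℕ) : Df E U J (fun k v => P k (v i) (v j) (v l) (v m)) :=
  h.ren (fun n => if n = 0 then i else if n = 1 then j else if n = 2 then l else m)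

end Df

end Closure

/-- `z = {{x}, {x, y}}` -/
def IsPr (E : M → M → Prop) (x y z : M) : Prop :=
  ∀ u, E u z ↔ ((∀ w, E w u ↔ w = x) ∨ (∀ w, E w u ↔ (w = x ∨ w = y)))

/-- `x` is the `n`-th entry of the stack `s` -/
def Nth (E : M → M → Prop) : ℕ → M → M → Prop
  | 0, s, x => ∃ r, IsPr E x r s
  | n + 1, s, x => ∃ y r, IsPr E y r s ∧ Nth E n r x

/-- internal satisfaction on stacks, class `U` -/
def SatM (E : M → M → Prop) (U : M → Prop) : Fml → M → Prop
  | .mem i k, s => ∃ x y, Nth E i s x ∧ Nth E k s y ∧ E x y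
  | .eq i k, s => ∃ x y, Nth E i s x ∧ Nth E k s y ∧ x = y
  | .cl i, s => ∃ x, Nth E i s x ∧ U x
  | .fn _ _, _ => False
  | .neg φ, s => ¬ SatM E U φ s
  | .and φ ψ, s => SatM E U φ s ∧ SatM E U ψ s
  | .all φ, s => ∀ x t, IsPr E x s t → SatM E U φ t

/-- tags of the relations that a candidate must preserve -/
inductive Tag : Type
  | mem | nmem | ne | pr | sub | diff | prod | qo | fld | fst | d2 | am | ae

/-- the relations that a candidate must preserve -/
def Rel (E : M → M → Prop) : Tag → M → M → M → M → Prop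
  | .mem, a, b, _, _ => E a b
  | .nmem, a, b, _, _ => ¬ E a b
  | .ne, a, b, _, _ => a ≠ b
  | .pr, a, b, c, _ => IsPr E a b c
  | .sub, a, b, _, _ => ∀ x, E x a → E x b
  | .diff, a, b, c, _ => ∀ x, E x c ↔ E x a ∧ ¬ E x b
  | .prod, a, b, c, _ => ∀ t, E t c ↔ ∃ x y, E x a ∧ E y b ∧ IsPr E x y t
  | .qo, z, a, S, b => ∀ s, E s b ↔ E s a ∧ ∀ x t, E x z → IsPr E x s t → E t S
  | .fld, a, c, _, _ => ∀ s x r, E s a → IsPr E x r s → E x c ∧ E r c
  | .fst, a, S, b, _ => ∀ s, E s b ↔ E s a ∧ ∃ x r, IsPr E x r s ∧ E x S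
  | .d2, a, S, b, _ => ∀ s, E s b ↔ E s a ∧ ∃ x y r q t, IsPr E y r q ∧ IsPr E x q s ∧
      IsPr E x r t ∧ E t S
  | .am, a, b, _, _ => ∀ s, E s b ↔ E s a ∧ ∃ x y r q, IsPr E y r q ∧ IsPr E x q s ∧ E x y
  | .ae, a, b, _, _ => ∀ s, E s b ↔ E s a ∧ ∃ x r q, IsPr E x r q ∧ IsPr E x q s

/-- `I` is the graph of a total function that preserves the relations of the list, is cofinal, and
carries the class `I⁻¹[U]` to the class `U` -/
def Cand (E : M → M → Prop) (U : M → Prop) (I : M → M → Prop) : Prop :=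
  (∀ x, ∃ y, I x y) ∧ (∀ x y z, I x y → I x z → y = z) ∧
  (∀ t a b c d a' b' c' d', I a a' → I b b' → I c c' → I d d' → Rel E t a b c d →
    Rel E t a' b' c' d') ∧
  (∀ y, ∃ x x', I x x' ∧ E y x') ∧
  (∀ a b a' b', I a a' → I b b' → (∀ x, E x b ↔ E x a ∧ ∃ y, I x y ∧ U y) →
    ∀ y, E y b' ↔ E y a' ∧ U y)

end Pool.Agent.H46.RE
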