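/-
BASE : schemes for definable predicates, abbreviations.
-/
import Mathlib
import Pool.Agent.H46.RE.Defs

set_option autoImplicit false

namespace Pool.Agent.H46.RE

universe u
variable {M : Type u} {E : M → M → Prop} {C : M → Prop} {J : M → M → Prop}

section
variable {K : Type*} {U' : K → M → Prop} {J' : K → M → M → Prop}

lemma Df.isPr (i j k : ℕ) : Df E U' J' (fun _ v => IsPr E (v i) (v j) (v k)) := by
  unfold IsPr
  (repeat' (first | exact Df.mem _ _ | exact Df.eq _ _ | refine Df.neg ?_ | refine Df.and ?_ ?_ | refine Df.or ?_ ?_ | refine Df.iff ?_ ?_ | refine Df.imp ?_ ?_ | refine Df.ex ?_ | refine Df.all ?_))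

lemma Df.top : Df E U' J' (fun _ _ => True) := (Df.eq 0 0).congr fun _ _ => by simp

lemma Df.bot : Df E U' J' (fun _ _ => False) := Df.top.neg.congr fun _ _ => by simp

end

/-- parameter-free definability in one structure -/
abbrev D1 (E : M → M → Prop) (C : M → Prop) (J : M → M → Prop) (P : (ℕ → M) → Prop) : Prop :=
  Df E (fun _ : Unit => C) (fun _ : Unit => J) (fun _ v => P v)

lemma ZFModel.sepD (h : ZFModel E C J) {P : (ℕ → M) → Prop} (hP : D1 E C J P) (v : ℕ → M) (a : M) :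
    ∃ b, ∀ x, E x b ↔ E x a ∧ P (cons x v) := by
  obtain ⟨φ, hφ⟩ := hP
  obtain ⟨b, hb⟩ := h.sep φ v a
  exact ⟨b, fun x => (hb x).trans (and_congr_right fun _ => hφ () _)⟩

lemma ZFModel.collD (h : ZFModel E C J) {P : (ℕ → M) → Prop} (hP : D1 E C J P) (v : ℕ → M) (a : M)
    (hx : ∀ x, E x a → ∃ y, P (cons x (cons y v))) :
    ∃ b, ∀ x, E x a → ∃ y, E y b ∧ P (cons x (cons y v)) := by
  obtain ⟨φ, hφ⟩ := hP
  obtain ⟨b, hb⟩ := h.coll φ v a (fun x hxa => by
    obtain ⟨y, hy⟩ := hx x hxa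
    exact ⟨y, (hφ () _).2 hy⟩)
  refine ⟨b, fun x hxa => ?_⟩
  obtain ⟨y, hyb, hy⟩ := hb x hxa
  exact ⟨y, hyb, (hφ () _).1 hy⟩

lemma ZFModel.foundD (h : ZFModel E C J) {P : (ℕ → M) → Prop} (hP : D1 E C J P) (v : ℕ → M)
    (hx : ∃ x, P (cons x v)) : ∃ x, P (cons x v) ∧ ∀ y, E y x → ¬ P (cons y v) := by
  obtain ⟨φ, hφ⟩ := hP
  obtain ⟨x, h1, h2⟩ := h.found φ v (by
    obtain ⟨x, hx⟩ := hx
    exact ⟨x, (hφ () _).2 hx⟩)
  exact ⟨x, (hφ () _).1 h1, fun y hy hP => h2 y hy ((hφ () _).2 hP)⟩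

/-- `∈`-induction for definable predicates -/
lemma ZFModel.indD (h : ZFModel E C J) {P : (ℕ → M) → Prop} (hP : D1 E C J P) (v : ℕ → M)
    (hx : ∀ x, (∀ y, E y x → P (cons y v)) → P (cons x v)) (x : M) : P (cons x v) := by
  by_contra hcon
  obtain ⟨y, h1, h2⟩ := h.foundD (P := fun v => ¬ P v) hP.neg v ⟨x, hcon⟩
  exact h1 (hx y fun z hz => not_not.1 (h2 z hz))

lemma ZFModel.irrefl (h : ZFModel E C J) (x : M) : ¬ E x x := by
  intro hx
  obtain ⟨y, h1, h2⟩ := h.foundD (P := fun v => v 0 = v 1) (Df.eq 0 1) (fun _ => x) ⟨x, rfl⟩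
  have hy : y = x := h1
  subst hy
  exact h2 y hx rfl

/-- the pairs: `I` of a candidate with parameter `p` -/
def Ip (E : M → M → Prop) (U : M → Prop) (φ : Fml) (p x y : M) : Prop :=
  ∃ q s, IsPr E y p q ∧ IsPr E x q s ∧ SatM E U φ s

/-- the preimage class of `U` under the candidate `p` -/
def Dp (E : M → M → Prop) (U : M → Prop) (φ : Fml) (p x : M) : Prop :=
  ∃ y, Ip E U φ p x y ∧ U y

/-- hereditarily `fix` -/
def Her (E : M → M → Prop) (fix : M → Prop) (x : M) : Prop :=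
  ∃ t, (∀ y z, E y t → E z y → E z t) ∧ E x t ∧ ∀ y, E y t → fix y

/-- fixed by all candidates -/
def AllFix (E : M → M → Prop) (U : M → Prop) (φ : Fml) (z : M) : Prop :=
  ∀ p, Cand E U (Ip E U φ p) → Ip E U φ p z z

end Pool.Agent.H46.RE
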