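/-
AX0 : the schemes of `ZF` for definable predicates.
-/
import Mathlib
import Pool.Agent.H46.RE.Base

set_option autoImplicit false

namespace Pool.Agent.H46.RE

universe u
variable {M : Type u} {E : M → M → Prop} {C : M → Prop} {J : M → M → Prop}

lemma ZF.sepD (h : ZF E C J) {P : (ℕ → M) → Prop} (hP : D1 E C J P) (v : ℕ → M) (a : M) :
    ∃ b, ∀ x, E x b ↔ E x a ∧ P (cons x v) := by
  obtain ⟨φ, hφ⟩ := hP
  obtain ⟨b, hb⟩ := h.separation φ v a
  exact ⟨b, fun x => (hb x).trans (and_congr_right fun _ => hφ () _)⟩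

lemma ZF.replD (h : ZF E C J) {P : (ℕ → M) → Prop} (hP : D1 E C J P) (v : ℕ → M) (a : M)
    (hx : ∀ x, E x a → ∃! y, P (cons x (cons y v))) :
    ∃ b, ∀ y, E y b ↔ ∃ x, E x a ∧ P (cons x (cons y v)) := by
  obtain ⟨φ, hφ⟩ := hP
  obtain ⟨b, hb⟩ := h.replacement φ v a (fun x hxa => by
    obtain ⟨y, hy, hy'⟩ := hx x hxa
    exact ⟨y, (hφ () _).2 hy, fun z hz => hy' z ((hφ () _).1 hz)⟩)
  exact ⟨b, fun y => (hb y).trans (exists_congr fun x => and_congr_right fun _ => hφ () _)⟩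

/-- `t` is transitive -/
def Trans (E : M → M → Prop) (t : M) : Prop := ∀ y z, E y t → E z y → E z t

end Pool.Agent.H46.RE
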