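/-
AXC2 : the Collection scheme from Replacement, given a rank comparison `R` with `R x y ↔ ∀ u ∈ x, ∃ v ∈ y, R u v`
(second half of the proof of `coll_ex` in AxC.lean: items (ii)-(v)).
-/
import Mathlib
import Pool.Agent.H46.RE.Ax0

set_option autoImplicit false

namespace Pool.Agent.H46.RE

universe u
variable {M : Type u} {E : M → M → Prop} {C : M → Prop} {J : M → M → Prop}

/-- `∈`-induction from the foundation scheme -/
lemma axc_ind (hfo : ∀ (P : (ℕ → M) → Prop), D1 E C J P → ∀ v : ℕ → M, (∃ x, P (cons x v)) →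
      ∃ x, P (cons x v) ∧ ∀ y, E y x → ¬ P (cons y v)) {P : (ℕ → M) → Prop} (hP : D1 E C J P)
    (v : ℕ → M) (hx : ∀ x, (∀ y, E y x → P (cons y v)) → P (cons x v)) (x : M) : P (cons x v) := by
  by_contra hcon
  obtain ⟨y, h1, h2⟩ := hfo (fun v => ¬ P v) hP.neg v ⟨x, hcon⟩
  exact h1 (hx y fun z hz => not_not.1 (h2 z hz))

section
variable {R : M → M → Prop}

lemma axc_refl (hfo : ∀ (P : (ℕ → M) → Prop), D1 E C J P → ∀ v : ℕ → M, (∃ x, P (cons x v)) →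
      ∃ x, P (cons x v) ∧ ∀ y, E y x → ¬ P (cons y v))
    (hD : D1 E C J (fun v => R (v 0) (v 1)))
    (hU : ∀ x y, R x y ↔ ∀ u, E u x → ∃ v, E v y ∧ R u v) (x : M) : R x x :=
  axc_ind hfo (P := fun v => R (v 0) (v 0)) (Df.at2 (P := fun _ x y => R x y) hD 0 0) (fun _ => x)
    (fun x ih => (hU x x).2 fun u hu => ⟨u, hu, ih u hu⟩) x

lemma axc_trans (hfo : ∀ (P : (ℕ → M) → Prop), D1 E C J P → ∀ v : ℕ → M, (∃ x, P (cons x v)) →
      ∃ x, P (cons x v) ∧ ∀ y, E y x → ¬ P (cons y v))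
    (hD : D1 E C J (fun v => R (v 0) (v 1)))
    (hU : ∀ x y, R x y ↔ ∀ u, E u x → ∃ v, E v y ∧ R u v) (x : M) :
    ∀ y z, R x y → R y z → R x z := by
  have hR : ∀ i j, D1 E C J (fun v => R (v i) (v j)) := fun i j =>
    Df.at2 (P := fun _ x y => R x y) hD i j
  refine axc_ind hfo (P := fun v => ∀ y z, R (v 0) y → R y z → R (v 0) z) ?_ (fun _ => x) ?_ x
  · exact Df.all (Df.all ((hR 2 1).imp ((hR 1 0).imp (hR 2 0))))
  · intro x ih y z hxy hyz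
    refine (hU x z).2 fun u hu => ?_
    obtain ⟨v, hv, huv⟩ := (hU x y).1 hxy u hu
    obtain ⟨w, hw, hvw⟩ := (hU y z).1 hyz v hv
    exact ⟨w, hw, ih u hu v w huv hvw⟩

lemma axc_total (hfo : ∀ (P : (ℕ → M) → Prop), D1 E C J P → ∀ v : ℕ → M, (∃ x, P (cons x v)) →
      ∃ x, P (cons x v) ∧ ∀ y, E y x → ¬ P (cons y v))
    (hD : D1 E C J (fun v => R (v 0) (v 1)))
    (hU : ∀ x y, R x y ↔ ∀ u, E u x → ∃ v, E v y ∧ R u v) (x : M) :
    ∀ y, R x y ∨ ∃ u, E u x ∧ R y u := by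
  have hR : ∀ i j, D1 E C J (fun v => R (v i) (v j)) := fun i j =>
    Df.at2 (P := fun _ x y => R x y) hD i j
  refine axc_ind hfo (P := fun v => ∀ y, R (v 0) y ∨ ∃ u, E u (v 0) ∧ R y u) ?_ (fun _ => x) ?_ x
  · exact Df.all ((hR 1 0).or (Df.ex ((Df.mem 0 2).and (hR 1 0))))
  · intro x ih y
    by_contra hcon
    have h1 : ¬ R x y := fun h => hcon (Or.inl h)
    have h2 : ∀ u, E u x → ¬ R y u := fun u hu h => hcon (Or.inr ⟨u, hu, h⟩)
    apply h1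
    refine (hU x y).2 fun u hu => ?_
    by_contra h3
    apply h2 u hu
    refine (hU y u).2 fun v hv => ?_
    rcases ih u hu v with h4 | h4
    · exact absurd ⟨v, hv, h4⟩ h3
    · exact h4

lemma axc_lower (h : ZF E C J)
    (hfo : ∀ (P : (ℕ → M) → Prop), D1 E C J P → ∀ v : ℕ → M, (∃ x, P (cons x v)) →
      ∃ x, P (cons x v) ∧ ∀ y, E y x → ¬ P (cons y v))
    (hD : D1 E C J (fun v => R (v 0) (v 1)))
    (hU : ∀ x y, R x y ↔ ∀ u, E u x → ∃ v, E v y ∧ R u v) (x : M) :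
    ∃ L, ∀ k, E k L ↔ R k x := by
  have hR : ∀ i j, D1 E C J (fun v => R (v i) (v j)) := fun i j =>
    Df.at2 (P := fun _ x y => R x y) hD i j
  refine axc_ind hfo (P := fun v => ∃ L, ∀ k, E k L ↔ R k (v 0)) ?_ (fun _ => x) ?_ x
  · exact Df.ex (Df.all ((Df.mem 0 1).iff (hR 0 2)))
  · intro x ih
    obtain ⟨S, hS⟩ := h.replD (P := fun v => ∀ k, E k (v 1) ↔ R k (v 0))
      (Df.all ((Df.mem 0 2).iff (hR 0 1))) (fun _ => x) x (fun u hu => by
        obtain ⟨L, hL⟩ := ih u hu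
        refine ⟨L, fun k => hL k, fun L' hL' => ?_⟩
        exact h.ext _ _ fun z => (hL' z).trans (hL z).symm)
    obtain ⟨U, hUU⟩ := h.union S
    obtain ⟨W, hW⟩ := h.power U
    obtain ⟨L, hL⟩ := h.sepD (P := fun v => R (v 0) (v 1)) hD (fun _ => x) W
    refine ⟨L, fun k => (hL k).trans ⟨fun h1 => h1.2, fun h1 => ⟨(hW k).2 fun v hv => ?_, h1⟩⟩⟩
    obtain ⟨u, hu, hvu⟩ := (hU k x).1 h1 v hv
    obtain ⟨Lu, hLu⟩ := ih u hu
    exact (hUU v).2 ⟨Lu, (hS Lu).2 ⟨u, hu, fun k => hLu k⟩, (hLu v).2 hvu⟩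

end

theorem coll_of_rank (h : ZF E C J)
    (hfo : ∀ (P : (ℕ → M) → Prop), D1 E C J P → ∀ v : ℕ → M, (∃ x, P (cons x v)) →
      ∃ x, P (cons x v) ∧ ∀ y, E y x → ¬ P (cons y v))
    (R : M → M → Prop) (hD : D1 E C J (fun v => R (v 0) (v 1)))
    (hU : ∀ x y, R x y ↔ ∀ u, E u x → ∃ v, E v y ∧ R u v)
    {P : (ℕ → M) → Prop} (hP : D1 E C J P) (v : ℕ → M) (a : M)
    (hx : ∀ x, E x a → ∃ y, P (cons x (cons y v))) :
    ∃ b, ∀ x, E x a → ∃ y, E y b ∧ P (cons x (cons y v)) := by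
  have hR : ∀ i j, D1 E C J (fun v => R (v i) (v j)) := fun i j =>
    Df.at2 (P := fun _ x y => R x y) hD i j
  -- P applied to variables i, j and parameters from s on
  have hPP : ∀ i j s, D1 E C J (fun w => P (cons (w i) (cons (w j) (fun n => w (n + s))))) := by
    intro i j s
    refine (Df.ren (P := fun _ v => P v) hP (fun n => if n = 0 then i else if n = 1 then j else n - 2 + s)).congr
      fun _ w => ?_
    have : (fun n => w (if n = 0 then i else if n = 1 then j else n - 2 + s)) =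
        cons (w i) (cons (w j) (fun n => w (n + s))) := by
      funext n
      rcases n with _ | _ | n <;> simp [cons]
    rw [this]
  -- least elements
  have hne : ∀ x, E x a → ∃ y, P (cons x (cons y v)) ∧ ∀ y', P (cons x (cons y' v)) → R y y' := by
    intro x hxa
    obtain ⟨y0, hy0⟩ := hx x hxa
    have hq : D1 E C J (fun w => ∃ y, P (cons (w 1) (cons y (fun n => w (n + 2)))) ∧ R y (w 0)) :=
      Df.ex ((hPP 2 0 3).and (hR 0 1))
    obtain ⟨z, ⟨y, hy, hyz⟩, hmin⟩ := hfo _ hq (cons x v) ⟨y0, y0, hy0, axc_refl hfo hD hU y0⟩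
    refine ⟨y, hy, fun y' hy' => ?_⟩
    rcases axc_total hfo hD hU z y' with h1 | ⟨u, hu, h1⟩
    · exact axc_trans hfo hD hU y z y' hyz h1
    · exact absurd ⟨y', hy', h1⟩ (hmin u hu)
  have hQ : D1 E C J (fun w => ∀ y, E y (w 1) ↔ (P (cons (w 0) (cons y (fun n => w (n + 2)))) ∧
      ∀ y', P (cons (w 0) (cons y' (fun n => w (n + 2)))) → R y y')) :=
    Df.all ((Df.mem 0 2).iff ((hPP 1 0 3).and (Df.all ((hPP 2 0 4).imp (hR 1 0)))))
  obtain ⟨S, hS⟩ := h.replD hQ v a (fun x hxa => by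
    obtain ⟨y0, hy0⟩ := hx x hxa
    obtain ⟨L, hL⟩ := axc_lower h hfo hD hU y0
    have hT : D1 E C J (fun w => P (cons (w 1) (cons (w 0) (fun n => w (n + 2)))) ∧
        ∀ y', P (cons (w 1) (cons y' (fun n => w (n + 2)))) → R (w 0) y') :=
      (hPP 1 0 2).and (Df.all ((hPP 2 0 3).imp (hR 1 0)))
    obtain ⟨m, hm⟩ := h.sepD hT (cons x v) L
    have hm' : ∀ y, E y m ↔ (P (cons x (cons y v)) ∧ ∀ y', P (cons x (cons y' v)) → R y y') := by
      intro y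
      refine (hm y).trans ⟨fun h1 => h1.2, fun h1 => ⟨(hL y).2 (h1.2 y0 hy0), h1⟩⟩
    refine ⟨m, hm', fun m' hm'' => ?_⟩
    exact h.ext _ _ fun z => (hm'' z).trans (hm' z).symm)
  obtain ⟨b, hb⟩ := h.union S
  refine ⟨b, fun x hxa => ?_⟩
  obtain ⟨y, hy, hy'⟩ := hne x hxa
  obtain ⟨y0, hy0⟩ := hx x hxa
  obtain ⟨L, hL⟩ := axc_lower h hfo hD hU y0
  have hT : D1 E C J (fun w => P (cons (w 1) (cons (w 0) (fun n => w (n + 2)))) ∧
      ∀ y', P (cons (w 1) (cons y' (fun n => w (n + 2)))) → R (w 0) y') :=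
    (hPP 1 0 2).and (Df.all ((hPP 2 0 3).imp (hR 1 0)))
  obtain ⟨m, hm⟩ := h.sepD hT (cons x v) L
  have hm' : ∀ y, E y m ↔ (P (cons x (cons y v)) ∧ ∀ y', P (cons x (cons y' v)) → R y y') := by
    intro y
    refine (hm y).trans ⟨fun h1 => h1.2, fun h1 => ⟨(hL y).2 (h1.2 y0 hy0), h1⟩⟩
  exact ⟨y, (hb y).2 ⟨m, (hS m).2 ⟨x, hxa, hm'⟩, (hm' y).2 ⟨hy, hy'⟩⟩, hy⟩

end Pool.Agent.H46.RE
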