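/-
AXC : the Collection scheme from Replacement (Scott's trick, ranks compared by simulations, no ordinals).

Given: (E, C, J) a model of `ZF` (Ax0.lean), every set is an element of a transitive set (htr), and the foundation scheme
for definable predicates (hfo).
PROOFS.
* Kuratowski pairs: axc_isPr_inj, axc_isPr_uniq, axc_isPr_ex.
* SimC S: `∀ p a b, E p S → IsPr E a b p → ∀ u, E u a → ∃ v q, E v b ∧ E q S ∧ IsPr E u v q`.
  LeC x y := ∃ S p, SimC S ∧ IsPr E x y p ∧ E p S.   (definable)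
* (i) LeC x y ↔ ∀ u ∈ x, ∃ v ∈ y, LeC u v.  (→) same S.  (←) t transitive with x ∈ t, y ∈ t; S := the set of the pairs (a, b)
  in the second power set of t with LeC a b or (a, b) = (x, y); a simulation by (→).
* (ii)-(v) (totality, transitivity, initial segments are sets, least elements, Collection) are in AxC2.lean.
-/
import Mathlib
import Pool.Agent.H46.RE.Ax0
import Pool.Agent.H46.RE.AxC2

set_option autoImplicit false

namespace Pool.Agent.H46.RE

universe u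
variable {M : Type u} {E : M → M → Prop} {C : M → Prop} {J : M → M → Prop}

lemma axc_isPr_inj (h : ZF E C J) {x y x' y' z : M} (h1 : IsPr E x y z) (h2 : IsPr E x' y' z) :
    x = x' ∧ y = y' := by
  have hxx : x = x' := by
    obtain ⟨u, hu⟩ := h.pair x x
    have hu' : ∀ w, E w u ↔ w = x := fun w => by simpa using hu w
    have huz : E u z := (h1 u).2 (Or.inl hu')
    rcases (h2 u).1 huz with h3 | h3
    · exact (h3 x).1 ((hu' x).2 rfl)
    · exact ((hu' x').1 ((h3 x').2 (Or.inl rfl))).symm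
  subst hxx
  refine ⟨rfl, ?_⟩
  obtain ⟨u, hu⟩ := h.pair x y
  have huz : E u z := (h1 u).2 (Or.inr hu)
  obtain ⟨u', hu'⟩ := h.pair x y'
  have huz' : E u' z := (h2 u').2 (Or.inr hu')
  have hy : y = x ∨ y = y' := by
    rcases (h2 u).1 huz with h3 | h3
    · exact Or.inl ((h3 y).1 ((hu y).2 (Or.inr rfl)))
    · exact (h3 y).1 ((hu y).2 (Or.inr rfl))
  have hy' : y' = x ∨ y' = y := by
    rcases (h1 u').1 huz' with h3 | h3
    · exact Or.inl ((h3 y').1 ((hu' y').2 (Or.inr rfl)))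
    · exact (h3 y').1 ((hu' y').2 (Or.inr rfl))
  rcases hy with h3 | h3
  · rcases hy' with h4 | h4
    · rw [h3, h4]
    · exact h4.symm
  · exact h3

lemma axc_isPr_uniq (h : ZF E C J) {x y z z' : M} (h1 : IsPr E x y z) (h2 : IsPr E x y z') :
    z = z' :=
  h.ext _ _ fun w => (h1 w).trans (h2 w).symm

lemma axc_isPr_ex (h : ZF E C J) (x y : M) : ∃ z, IsPr E x y z := by
  obtain ⟨a, ha⟩ := h.pair x x
  obtain ⟨b, hb⟩ := h.pair x y
  obtain ⟨z, hz⟩ := h.pair a b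
  refine ⟨z, fun u => ?_⟩
  rw [hz]
  constructor
  · rintro (rfl | rfl)
    · exact Or.inl fun w => by simpa using ha w
    · exact Or.inr hb
  · rintro (h1 | h1)
    · exact Or.inl (h.ext _ _ fun w => by rw [h1, ha]; simp)
    · exact Or.inr (h.ext _ _ fun w => by rw [h1, hb])

/-- `S` is a simulation -/
def SimC (E : M → M → Prop) (S : M) : Prop :=
  ∀ p a b, E p S → IsPr E a b p → ∀ u, E u a → ∃ v q, E v b ∧ E q S ∧ IsPr E u v q

/-- the rank of `x` is at most the rank of `y` -/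
def LeC (E : M → M → Prop) (x y : M) : Prop := ∃ S p, SimC E S ∧ IsPr E x y p ∧ E p S

lemma leC_D1 : D1 E C J (fun v => LeC E (v 0) (v 1)) := by
  unfold LeC SimC
  (repeat' (first | exact Df.mem _ _ | exact Df.eq _ _ | exact Df.cl _ | exact Df.fn _ _ | exact Df.isPr _ _ _ | exact Df.top | exact Df.bot | refine Df.neg ?_ | refine Df.and ?_ ?_ | refine Df.or ?_ ?_ | refine Df.iff ?_ ?_ | refine Df.imp ?_ ?_ | refine Df.ex ?_ | refine Df.all ?_))

lemma leC_imp {x y : M} (hxy : LeC E x y) (u : M) (hu : E u x) : ∃ v, E v y ∧ LeC E u v := by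
  obtain ⟨S, p, hS, hp, hpS⟩ := hxy
  obtain ⟨v, q, hv, hq, hpr⟩ := hS p x y hpS hp u hu
  exact ⟨v, hv, S, q, hS, hpr, hq⟩

lemma leC_iff (h : ZF E C J) (htr : ∀ x, ∃ t, Trans E t ∧ E x t) (x y : M) :
    LeC E x y ↔ ∀ u, E u x → ∃ v, E v y ∧ LeC E u v := by
  refine ⟨fun hxy u hu => leC_imp hxy u hu, fun hall => ?_⟩
  obtain ⟨d, hd⟩ := h.pair x y
  obtain ⟨t, ht, hdt⟩ := htr d
  have hxt : E x t := ht d x hdt ((hd x).2 (Or.inl rfl))
  have hyt : E y t := ht d y hdt ((hd y).2 (Or.inr rfl))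
  obtain ⟨P1, hP1⟩ := h.power t
  obtain ⟨P2, hP2⟩ := h.power P1
  have hmem : ∀ a b p, E a t → E b t → IsPr E a b p → E p P2 := by
    intro a b p ha hb hp
    refine (hP2 p).2 fun s hs => (hP1 s).2 fun w hw => ?_
    rcases (hp s).1 hs with h1 | h1
    · rw [(h1 w).1 hw]; exact ha
    · rcases (h1 w).1 hw with h2 | h2
      · rw [h2]; exact ha
      · rw [h2]; exact hb
  have hle : ∀ i j, D1 E C J (fun v => LeC E (v i) (v j)) := fun i j =>
    Df.at2 (P := fun _ x y => LeC E x y) leC_D1 i j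
  have hQ : D1 E C J (fun v => ∃ a b, E a (v 1) ∧ E b (v 1) ∧ IsPr E a b (v 0) ∧
      (LeC E a b ∨ (a = v 2 ∧ b = v 3))) :=
    Df.ex (Df.ex ((Df.mem 1 3).and ((Df.mem 0 3).and ((Df.isPr 1 0 2).and
      ((hle 1 0).or ((Df.eq 1 4).and (Df.eq 0 5)))))))
  obtain ⟨S, hS⟩ := h.sepD hQ (cons t (cons x (cons y (fun _ => y)))) P2
  have hS' : ∀ p, E p S ↔ ∃ a b, E a t ∧ E b t ∧ IsPr E a b p ∧ (LeC E a b ∨ (a = x ∧ b = y)) := by
    intro p
    refine (hS p).trans ⟨fun h1 => h1.2, fun h1 => ⟨?_, h1⟩⟩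
    obtain ⟨a, b, ha, hb, hp, _⟩ := h1
    exact hmem a b p ha hb hp
  have hsim : SimC E S := by
    intro p a b hp hab u hu
    obtain ⟨a', b', ha, hb, hp', hor⟩ := (hS' p).1 hp
    obtain ⟨rfl, rfl⟩ := axc_isPr_inj h hab hp'
    have hv : ∃ v, E v b ∧ LeC E u v := by
      rcases hor with h1 | ⟨h1, h2⟩
      · exact leC_imp h1 u hu
      · subst h1
        subst h2
        exact hall u hu
    obtain ⟨v, hvb, huv⟩ := hv
    obtain ⟨q, hq⟩ := axc_isPr_ex h u v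
    exact ⟨v, q, hvb, (hS' q).2 ⟨u, v, ht a u ha hu, ht b v hb hvb, hq, Or.inl huv⟩, hq⟩
  obtain ⟨p, hp⟩ := axc_isPr_ex h x y
  exact ⟨S, p, hsim, hp, (hS' p).2 ⟨x, y, hxt, hyt, hp, Or.inr ⟨rfl, rfl⟩⟩⟩

theorem coll_ex (h : ZF E C J) (htr : ∀ x, ∃ t, Trans E t ∧ E x t)
    (hfo : ∀ (P : (ℕ → M) → Prop), D1 E C J P → ∀ v : ℕ → M, (∃ x, P (cons x v)) →
      ∃ x, P (cons x v) ∧ ∀ y, E y x → ¬ P (cons y v))
    {P : (ℕ → M) → Prop} (hP : D1 E C J P) (v : ℕ → M) (a : M)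
    (hx : ∀ x, E x a → ∃ y, P (cons x (cons y v))) :
    ∃ b, ∀ x, E x a → ∃ y, E y b ∧ P (cons x (cons y v)) :=
  coll_of_rank h hfo (LeC E) leC_D1 (leC_iff h htr) hP v a hx

end Pool.Agent.H46.RE
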