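/-
AXT : existence of transitive closures from Infinity and Replacement.

The sequence a₀ = {x}, a₍n+1₎ = ⋃ aₙ is described by approximations (sets of pairs); t = ⋃ₙ aₙ.
-/
import Mathlib
import Pool.Agent.H46.RE.Ax0
import Pool.Agent.H46.RE.AxC

set_option autoImplicit false

namespace Pool.Agent.H46.RE

universe u
variable {M : Type u} {E : M → M → Prop} {C : M → Prop} {J : M → M → Prop}

/-- `y` is empty -/
def AxE (E : M → M → Prop) (y : M) : Prop := ∀ w, ¬ E w y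

/-- `y = x ∪ {x}` -/
def AxS (E : M → M → Prop) (x y : M) : Prop := ∀ w, E w y ↔ E w x ∨ w = x

/-- `y = ⋃ x` -/
def AxU (E : M → M → Prop) (x y : M) : Prop := ∀ w, E w y ↔ ∃ z, E z x ∧ E w z

/-- `z` is inductive -/
def AxI (E : M → M → Prop) (z : M) : Prop :=
  (∃ e, E e z ∧ AxE E e) ∧ ∀ x, E x z → ∃ y, E y z ∧ AxS E x y

/-- `g` is an approximation with `(n, a) ∈ g` -/
def AxG (E : M → M → Prop) (s n a g : M) : Prop :=
  (∃ p, IsPr E n a p ∧ E p g) ∧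
  ∀ p m b, E p g → IsPr E m b p → (AxE E m ∧ b = s) ∨
    ∃ m' b' p', AxS E m' m ∧ IsPr E m' b' p' ∧ E p' g ∧ AxU E b' b

/-- `a` is the `n`-th member of the sequence -/
def AxA (E : M → M → Prop) (s n a : M) : Prop := ∃ g, AxG E s n a g

lemma axt_succ_inj (h : ZF E C J) {m m' n : M} (h1 : AxS E m n) (h2 : AxS E m' n) : m = m' := by
  by_contra hne
  have e1 : E m m' := by
    rcases (h2 m).1 ((h1 m).2 (Or.inr rfl)) with h3 | h3
    · exact h3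
    · exact absurd h3 hne
  have e2 : E m' m := by
    rcases (h1 m').1 ((h2 m').2 (Or.inr rfl)) with h3 | h3
    · exact h3
    · exact absurd h3.symm hne
  obtain ⟨a, ha⟩ := h.pair m m'
  obtain ⟨y, hy, hy'⟩ := h.foundation a ⟨m, (ha m).2 (Or.inl rfl)⟩
  rcases (ha y).1 hy with rfl | rfl
  · exact hy' m' e2 ((ha m').2 (Or.inr rfl))
  · exact hy' m e1 ((ha m).2 (Or.inl rfl))

lemma axt_not_both {m n : M} (h1 : AxE E n) (h2 : AxS E m n) : False :=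
  h1 m ((h2 m).2 (Or.inr rfl))

lemma axt_succ_ex (h : ZF E C J) (m : M) : ∃ n, AxS E m n := by
  obtain ⟨s, hs⟩ := h.pair m m
  obtain ⟨q, hq⟩ := h.pair m s
  obtain ⟨n, hn⟩ := h.union q
  refine ⟨n, fun w => ?_⟩
  rw [hn]
  constructor
  · rintro ⟨y, hy, hw⟩
    rcases (hq y).1 hy with rfl | rfl
    · exact Or.inl hw
    · exact Or.inr (by simpa using (hs w).1 hw)
  · rintro (hw | rfl)
    · exact ⟨m, (hq m).2 (Or.inl rfl), hw⟩
    · exact ⟨s, (hq s).2 (Or.inr rfl), (hs w).2 (Or.inl rfl)⟩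

lemma axt_add (h : ZF E C J) (g p : M) : ∃ g', ∀ w, E w g' ↔ E w g ∨ w = p := by
  obtain ⟨s, hs⟩ := h.pair p p
  obtain ⟨q, hq⟩ := h.pair g s
  obtain ⟨n, hn⟩ := h.union q
  refine ⟨n, fun w => ?_⟩
  rw [hn]
  constructor
  · rintro ⟨y, hy, hw⟩
    rcases (hq y).1 hy with rfl | rfl
    · exact Or.inl hw
    · exact Or.inr (by simpa using (hs w).1 hw)
  · rintro (hw | rfl)
    · exact ⟨g, (hq g).2 (Or.inl rfl), hw⟩
    · exact ⟨s, (hq s).2 (Or.inr rfl), (hs w).2 (Or.inl rfl)⟩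

lemma axt_zero (h : ZF E C J) {s n : M} (hn : AxE E n) : AxA E s n s := by
  obtain ⟨p, hp⟩ := axc_isPr_ex h n s
  obtain ⟨g, hg⟩ := h.pair p p
  refine ⟨g, ⟨p, hp, (hg p).2 (Or.inl rfl)⟩, fun p' m b hp' hb => Or.inl ?_⟩
  have : p' = p := by simpa using (hg p').1 hp'
  subst this
  obtain ⟨rfl, rfl⟩ := axc_isPr_inj h hb hp
  exact ⟨hn, rfl⟩

lemma axt_step (h : ZF E C J) {s n n' a a' : M} (hn : AxS E n n') (ha : AxU E a a')
    (hA : AxA E s n a) : AxA E s n' a' := by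
  obtain ⟨g, ⟨p, hp, hpg⟩, hg⟩ := hA
  obtain ⟨q, hq⟩ := axc_isPr_ex h n' a'
  obtain ⟨g', hg'⟩ := axt_add h g q
  refine ⟨g', ⟨q, hq, (hg' q).2 (Or.inr rfl)⟩, fun p' m b hp' hb => ?_⟩
  rcases (hg' p').1 hp' with h1 | rfl
  · rcases hg p' m b h1 hb with h2 | ⟨m', b', p'', h2, h3, h4, h5⟩
    · exact Or.inl h2
    · exact Or.inr ⟨m', b', p'', h2, h3, (hg' p'').2 (Or.inl h4), h5⟩
  · obtain ⟨rfl, rfl⟩ := axc_isPr_inj h hb hq
    exact Or.inr ⟨n, a, p, hn, hp, (hg' p).2 (Or.inl hpg), ha⟩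

lemma axt_sub {s n a g p m b : M} (hA : AxG E s n a g) (hp : E p g) (hb : IsPr E m b p) :
    AxG E s m b g := ⟨⟨p, hb, hp⟩, hA.2⟩

theorem trcl_ex (h : ZF E C J) (x : M) : ∃ t, Trans E t ∧ E x t := by
  obtain ⟨s, hs⟩ := h.pair x x
  obtain ⟨z₀, hz₀⟩ := h.infinity
  have hz₀' : AxI E z₀ := hz₀
  -- ω
  have hdI : D1 E C J (fun v => ∀ z, AxI E z → E (v 0) z) := by
    unfold AxI AxE AxS
    (repeat' (first | exact Df.mem _ _ | exact Df.eq _ _ | exact Df.cl _ | exact Df.fn _ _ | exact Df.isPr _ _ _ | exact Df.top | exact Df.bot | refine Df.neg ?_ | refine Df.and ?_ ?_ | refine Df.or ?_ ?_ | refine Df.iff ?_ ?_ | refine Df.imp ?_ ?_ | refine Df.ex ?_ | refine Df.all ?_))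
  obtain ⟨ω, hω⟩ := h.sepD hdI (fun _ => x) z₀
  have hωI : AxI E ω := by
    refine ⟨?_, fun m hm => ?_⟩
    · obtain ⟨e, he, he'⟩ := hz₀'.1
      refine ⟨e, (hω e).2 ⟨he, fun z hz => ?_⟩, he'⟩
      obtain ⟨e', h1, h2⟩ := hz.1
      have : e' = e := h.ext _ _ fun w => ⟨fun hw => absurd hw (h2 w), fun hw => absurd hw (he' w)⟩
      exact this ▸ h1
    · have hm' := (hω m).1 hm
      obtain ⟨n, hn, hn'⟩ := hz₀'.2 m hm'.1
      refine ⟨n, (hω n).2 ⟨hn, fun z hz => ?_⟩, hn'⟩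
      obtain ⟨n₂, h1, h2⟩ := hz.2 m (hm'.2 z hz)
      have : n₂ = n := h.ext _ _ fun w => (h2 w).trans (hn' w).symm
      exact this ▸ h1
  -- induction
  have hind : ∀ (P : (ℕ → M) → Prop), D1 E C J P → ∀ v : ℕ → M,
      (∀ e, AxE E e → E e ω → P (cons e v)) →
      (∀ m n, E m ω → E n ω → AxS E m n → P (cons m v) → P (cons n v)) →
      ∀ n, E n ω → P (cons n v) := by
    intro P hP v h0 hstep n hn
    obtain ⟨S, hS⟩ := h.sepD hP v ω
    have hSI : AxI E S := by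
      refine ⟨?_, fun m hm => ?_⟩
      · obtain ⟨e, he, he'⟩ := hωI.1
        exact ⟨e, (hS e).2 ⟨he, h0 e he' he⟩, he'⟩
      · have hm' := (hS m).1 hm
        obtain ⟨n, hn, hn'⟩ := hωI.2 m hm'.1
        exact ⟨n, (hS n).2 ⟨hn, hstep m n hm'.1 hn hn' hm'.2⟩, hn'⟩
    exact ((hS n).1 (((hω n).1 hn).2 S hSI)).2
  have hdA : D1 E C J (fun v => AxA E (v 1) (v 0) (v 2)) := by
    unfold AxA AxG AxE AxS AxU
    (repeat' (first | exact Df.mem _ _ | exact Df.eq _ _ | exact Df.cl _ | exact Df.fn _ _ | exact Df.isPr _ _ _ | exact Df.top | exact Df.bot | refine Df.neg ?_ | refine Df.and ?_ ?_ | refine Df.or ?_ ?_ | refine Df.iff ?_ ?_ | refine Df.imp ?_ ?_ | refine Df.ex ?_ | refine Df.all ?_))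
  -- existence
  have hex : ∀ n, E n ω → ∃ a, AxA E s n a := by
    refine hind (fun v => ∃ a, AxA E (v 1) (v 0) a) ?_ (fun _ => s) ?_ ?_
    · exact Df.ex (Df.at3 (P := fun _ a b c => AxA E b a c) hdA 1 2 0)
    · intro e he _
      exact ⟨s, axt_zero h he⟩
    · rintro m n _ _ hmn ⟨a, ha⟩
      obtain ⟨a', ha'⟩ := h.union a
      exact ⟨a', axt_step h hmn ha' ha⟩
  -- uniqueness
  have huq : ∀ n, E n ω → ∀ a b, AxA E s n a → AxA E s n b → a = b := by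
    refine hind (fun v => ∀ a b, AxA E (v 1) (v 0) a → AxA E (v 1) (v 0) b → a = b) ?_
      (fun _ => s) ?_ ?_
    · refine Df.all (Df.all (Df.imp ?_ (Df.imp ?_ (Df.eq _ _))))
      · exact Df.at3 (P := fun _ a b c => AxA E b a c) hdA 2 3 1
      · exact Df.at3 (P := fun _ a b c => AxA E b a c) hdA 2 3 0
    · rintro e he _ a b ⟨g, ⟨p, hp, hpg⟩, hg⟩ ⟨g', ⟨p', hp', hpg'⟩, hg'⟩
      have h1 : a = s := by
        rcases hg p e a hpg hp with h2 | ⟨m', b', p'', h2, _⟩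
        · exact h2.2
        · exact (axt_not_both he h2).elim
      have h1' : b = s := by
        rcases hg' p' e b hpg' hp' with h2 | ⟨m', b', p'', h2, _⟩
        · exact h2.2
        · exact (axt_not_both he h2).elim
      exact h1.trans h1'.symm
    · rintro m n _ _ hmn hIH a b ⟨g, hG⟩ ⟨g', hG'⟩
      obtain ⟨p, hp, hpg⟩ := hG.1
      obtain ⟨p', hp', hpg'⟩ := hG'.1
      rcases hG.2 p n a hpg hp with h2 | ⟨m₁, b₁, p₁, h2, h3, h4, h5⟩
      · exact (axt_not_both h2.1 hmn).elim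
      rcases hG'.2 p' n b hpg' hp' with h2' | ⟨m₂, b₂, p₂, h2', h3', h4', h5'⟩
      · exact (axt_not_both h2'.1 hmn).elim
      have e1 : m₁ = m := axt_succ_inj h h2 hmn
      have e2 : m₂ = m := axt_succ_inj h h2' hmn
      subst e1
      subst e2
      have e3 : b₁ = b₂ := hIH b₁ b₂ ⟨g, axt_sub hG h4 h3⟩ ⟨g', axt_sub hG' h4' h3'⟩
      subst e3
      exact h.ext _ _ fun w => (h5 w).trans (h5' w).symm
  -- the union
  obtain ⟨B, hB⟩ := h.replD (P := fun v => AxA E (v 2) (v 0) (v 1))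
    (Df.at3 (P := fun _ a b c => AxA E b a c) hdA 0 2 1) (fun _ => s) ω (fun n hn => by
      obtain ⟨a, ha⟩ := hex n hn
      exact ⟨a, ha, fun b hb => huq n hn b a hb ha⟩)
  obtain ⟨t, ht⟩ := h.union B
  refine ⟨t, fun y z hy hz => ?_, ?_⟩
  · obtain ⟨a, ha, hya⟩ := (ht y).1 hy
    obtain ⟨n, hn, hA⟩ := (hB a).1 ha
    obtain ⟨a', ha'⟩ := h.union a
    obtain ⟨n', hn', hnn⟩ := hωI.2 n hn
    exact (ht z).2 ⟨a', (hB a').2 ⟨n', hn', axt_step h hnn ha' hA⟩, (ha' z).2 ⟨y, hya, hz⟩⟩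
  · obtain ⟨e, he, he'⟩ := hωI.1
    exact (ht x).2 ⟨s, (hB s).2 ⟨e, he, axt_zero h he'⟩, (hs x).2 (Or.inl rfl)⟩

end Pool.Agent.H46.RE
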