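/-
AX : a model of ZF in the official form (Foundation, Separation, Replacement) satisfies the foundation and collection
schemes.
-/
import Mathlib
import Pool.Agent.H46.RE.AxT
import Pool.Agent.H46.RE.AxC

set_option autoImplicit false

namespace Pool.Agent.H46.RE

universe u
variable {M : Type u} {E : M → M → Prop} {C : M → Prop} {J : M → M → Prop}

lemma Ax_found (h : ZF E C J) (P : (ℕ → M) → Prop) (hP : D1 E C J P) (v : ℕ → M)
    (hx : ∃ x, P (cons x v)) : ∃ x, P (cons x v) ∧ ∀ y, E y x → ¬ P (cons y v) := by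
  obtain ⟨x, hx⟩ := hx
  obtain ⟨t, ht, hxt⟩ := trcl_ex h x
  obtain ⟨b, hb⟩ := h.sepD hP v t
  obtain ⟨y, hy, hy'⟩ := h.foundation b ⟨x, (hb x).2 ⟨hxt, hx⟩⟩
  refine ⟨y, ((hb y).1 hy).2, fun z hz hPz => hy' z hz ((hb z).2 ⟨?_, hPz⟩)⟩
  exact ht y z ((hb y).1 hy).1 hz

theorem ZF.model (h : ZF E C J) : ZFModel E C J where
  ext := h.ext
  pair := h.pair
  union := h.union
  power := h.power
  infinity := h.infinity
  found φ v hx := Ax_found h (fun v => Sat E C J φ v) ⟨φ, fun _ _ => Iff.rfl⟩ v hx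
  sep := h.separation
  coll φ v a hx := coll_ex h (trcl_ex h) (Ax_found h) (P := fun v => Sat E C J φ v)
    ⟨φ, fun _ _ => Iff.rfl⟩ v a hx

end Pool.Agent.H46.RE
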