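/-
DEFSAT : definability of the predicates used in the proof.

By the closure lemmas of `Df`, induction on the numeral / formula, and case distinction on the tag.
`Df.at1` ... `Df.at4` apply a definable predicate to arbitrary variables.  For `∀ t : Tag, …`: rewrite as a
conjunction of 13 statements (`Df.congr`), each by `Df.rel`.  U k is the class of the k-th structure, J arbitrary.
-/
import Mathlib
import Pool.Agent.H46.RE.Base

set_option autoImplicit false

namespace Pool.Agent.H46.RE

universe u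
variable {M : Type u} {E : M → M → Prop} {K : Type*} {U : K → M → Prop} {J : K → M → M → Prop}

lemma Df.nth (n i j : ℕ) : Df E U J (fun _ v => Nth E n (v i) (v j)) := by
  induction n generalizing i j with
  | zero =>
    unfold Nth
    (repeat' (first | exact Df.mem _ _ | exact Df.eq _ _ | exact Df.cl _ | exact Df.fn _ _ | exact Df.isPr _ _ _ | exact Df.top | exact Df.bot | refine Df.neg ?_ | refine Df.and ?_ ?_ | refine Df.or ?_ ?_ | refine Df.iff ?_ ?_ | refine Df.imp ?_ ?_ | refine Df.ex ?_ | refine Df.all ?_))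
  | succ n ih =>
    unfold Nth
    refine Df.ex ?_
    refine Df.ex ?_
    exact (Df.isPr _ _ _).and (ih _ _)

lemma Df.satM (φ : Fml) (i : ℕ) : Df E U J (fun k v => SatM E (U k) φ (v i)) := by
  induction φ generalizing i with
  | mem a b =>
    unfold SatM
    refine Df.ex ?_
    refine Df.ex ?_
    exact (Df.nth _ _ _).and ((Df.nth _ _ _).and (Df.mem _ _))
  | eq a b =>
    unfold SatM
    refine Df.ex ?_
    refine Df.ex ?_
    exact (Df.nth _ _ _).and ((Df.nth _ _ _).and (Df.eq _ _))
  | cl a =>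
    unfold SatM
    refine Df.ex ?_
    exact (Df.nth _ _ _).and (Df.cl _)
  | fn a b =>
    unfold SatM
    exact Df.bot
  | neg φ ih =>
    unfold SatM
    exact (ih _).neg
  | and φ ψ ih ih' =>
    unfold SatM
    exact (ih _).and (ih' _)
  | all φ ih =>
    unfold SatM
    refine Df.all ?_
    refine Df.all ?_
    exact (Df.isPr _ _ _).imp (ih _)

lemma Df.rel (t : Tag) (a b c d : ℕ) : Df E U J (fun _ v => Rel E t (v a) (v b) (v c) (v d)) := by
  cases t <;> unfold Rel <;> (repeat' (first | exact Df.mem _ _ | exact Df.eq _ _ | exact Df.cl _ | exact Df.fn _ _ | exact Df.isPr _ _ _ | exact Df.top | exact Df.bot | refine Df.neg ?_ | refine Df.and ?_ ?_ | refine Df.or ?_ ?_ | refine Df.iff ?_ ?_ | refine Df.imp ?_ ?_ | refine Df.ex ?_ | refine Df.all ?_))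

lemma Df.ip (φ : Fml) (p x y : ℕ) : Df E U J (fun k v => Ip E (U k) φ (v p) (v x) (v y)) := by
  unfold Ip
  refine Df.ex ?_
  refine Df.ex ?_
  exact (Df.isPr _ _ _).and ((Df.isPr _ _ _).and (Df.satM _ _))

lemma Df.dp (φ : Fml) (p x : ℕ) : Df E U J (fun k v => Dp E (U k) φ (v p) (v x)) := by
  unfold Dp
  refine Df.ex ?_
  exact (Df.ip _ _ _ _).and (Df.cl _)

lemma Df.allTag {P : Tag → K → (ℕ → M) → Prop} (h : ∀ t, Df E U J (P t)) :
    Df E U J (fun k v => ∀ t, P t k v) := by
  refine ((h .mem).and ((h .nmem).and ((h .ne).and ((h .pr).and ((h .sub).and ((h .diff).and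
    ((h .prod).and ((h .qo).and ((h .fld).and ((h .fst).and ((h .d2).and ((h .am).and
    (h .ae))))))))))))).congr fun k v => ⟨?_, fun h' => ⟨h' _, h' _, h' _, h' _, h' _, h' _, h' _,
      h' _, h' _, h' _, h' _, h' _, h' _⟩⟩
  rintro ⟨h1, h2, h3, h4, h5, h6, h7, h8, h9, h10, h11, h12, h13⟩ t
  cases t <;> assumption

lemma Df.cand (φ : Fml) (p : ℕ) : Df E U J (fun k v => Cand E (U k) (Ip E (U k) φ (v p))) := by
  unfold Cand
  refine Df.and ?_ (Df.and ?_ (Df.and ?_ (Df.and ?_ ?_)))
  · refine Df.all ?_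
    refine Df.ex ?_
    exact Df.ip _ _ _ _
  · refine Df.all ?_
    refine Df.all ?_
    refine Df.all ?_
    exact (Df.ip _ _ _ _).imp ((Df.ip _ _ _ _).imp (Df.eq _ _))
  · refine Df.allTag fun t => ?_
    refine Df.all ?_
    refine Df.all ?_
    refine Df.all ?_
    refine Df.all ?_
    refine Df.all ?_
    refine Df.all ?_
    refine Df.all ?_
    refine Df.all ?_
    exact (Df.ip _ _ _ _).imp ((Df.ip _ _ _ _).imp ((Df.ip _ _ _ _).imp ((Df.ip _ _ _ _).imp
      ((Df.rel _ _ _ _ _).imp (Df.rel _ _ _ _ _)))))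
  · refine Df.all ?_
    refine Df.ex ?_
    refine Df.ex ?_
    exact (Df.ip _ _ _ _).and (Df.mem _ _)
  · refine Df.all ?_
    refine Df.all ?_
    refine Df.all ?_
    refine Df.all ?_
    refine (Df.ip _ _ _ _).imp ((Df.ip _ _ _ _).imp (Df.imp ?_ ?_))
    · refine Df.all ?_
      refine (Df.mem _ _).iff ((Df.mem _ _).and ?_)
      refine Df.ex ?_
      exact (Df.ip _ _ _ _).and (Df.cl _)
    · refine Df.all ?_
      exact (Df.mem _ _).iff ((Df.mem _ _).and (Df.cl _))

lemma Df.allFix (φ : Fml) (z : ℕ) : Df E U J (fun k v => AllFix E (U k) φ (v z)) := by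
  unfold AllFix
  refine Df.all ?_
  exact (Df.cand _ _).imp (Df.ip _ _ _ _)

lemma Df.her (φ : Fml) (x : ℕ) : Df E U J (fun k v => Her E (AllFix E (U k) φ) (v x)) := by
  unfold Her
  refine Df.ex ?_
  refine Df.and ?_ (Df.and (Df.mem _ _) ?_)
  · refine Df.all ?_
    refine Df.all ?_
    exact (Df.mem _ _).imp ((Df.mem _ _).imp (Df.mem _ _))
  · refine Df.all ?_
    exact (Df.mem _ _).imp (Df.allFix _ _)

/-- `x_x` is the set of all hereditarily fixed sets -/
lemma Df.final (φ : Fml) (x : ℕ) :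
    Df E U J (fun k v => ∀ y, E y (v x) ↔ Her E (AllFix E (U k) φ) y) := by
  refine Df.all ?_
  exact (Df.mem _ _).iff (Df.her _ _)

end Pool.Agent.H46.RE
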