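/-
PAIR : Kuratowski pairs and existence of the sets used in the list `Rel` (file Defs.lean).

Use `h.sepD`, `h.collD`, `h.foundD`, `h.indD` (file Base.lean) with `hP` proved by the closure lemmas of `Df` (predicates must be
written with `E`, `=`, `IsPr`, connectives, quantifiers and `v i`, `i` a numeral; the separated variable is `v 0`, the
parameters are `v 1, v 2, ...`; take `v := cons a (cons b (fun _ => b))` and so on).
PROOFS.
* isPr_inj: z = {{x},{x,y}} (as E-sets). {x} is in z: the sets u with ∀ w, E w u ↔ w = x exist by h.pair x x.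
  Standard: x is the only common element of all elements of z; so x = x'. Then y = y' by looking at {x,y} and {x,y'}.
* isPr_uniq: h.ext.  * isPr_ex: h.pair three times (h.ext to identify the two descriptions of the elements).
* ex_union2: h.pair a b, then h.union.
* ex_prod: for x in a: by collD there is a set containing all pairs (x, y), y in b; by collD again there is a set c' such
  that for every x in a some element w of c' contains all pairs (x, y), y in b; union, then sepD.  (Or: twice the power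
  set of a ∪ b.)
* ex_fld: c = ⋃ ⋃ a (h.union twice), because {x,r} ∈ s ∈ a.
* ex_diff, ex_qo, ex_fst, ex_d2, ex_am, ex_ae: sepD in the first argument set.
-/
import Mathlib
import Pool.Agent.H46.RE.Base

set_option autoImplicit false

namespace Pool.Agent.H46.RE

universe u
variable {M : Type u} {E : M → M → Prop} {C : M → Prop} {J : M → M → Prop}

/-- the elements of a pair -/
private lemma isPr_sing (h : ZFModel E C J) {x y z : M} (h1 : IsPr E x y z) :
    ∃ u, E u z ∧ ∀ w, E w u ↔ w = x := by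
  obtain ⟨u, hu⟩ := h.pair x x
  have hu' : ∀ w, E w u ↔ w = x := fun w => by simpa using hu w
  exact ⟨u, (h1 u).2 (Or.inl hu'), hu'⟩

private lemma isPr_pair (h : ZFModel E C J) {x y z : M} (h1 : IsPr E x y z) :
    ∃ u, E u z ∧ ∀ w, E w u ↔ (w = x ∨ w = y) := by
  obtain ⟨u, hu⟩ := h.pair x y
  exact ⟨u, (h1 u).2 (Or.inr hu), hu⟩

lemma isPr_inj (h : ZFModel E C J) {x y x' y' z : M} (h1 : IsPr E x y z) (h2 : IsPr E x' y' z) :
    x = x' ∧ y = y' := by
  have hxx : x = x' := by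
    obtain ⟨u, huz, hu⟩ := isPr_sing h h1
    rcases (h2 u).1 huz with h3 | h3
    · exact (h3 x).1 ((hu x).2 rfl)
    · have h4 : x' = x := (hu x').1 ((h3 x').2 (Or.inl rfl))
      exact h4.symm
  subst hxx
  refine ⟨rfl, ?_⟩
  obtain ⟨u, huz, hu⟩ := isPr_pair h h1
  obtain ⟨u', huz', hu'⟩ := isPr_pair h h2
  have hy : y = x ∨ y = y' := by
    rcases (h2 u).1 huz with h3 | h3
    · exact Or.inl ((h3 y).1 ((hu y).2 (Or.inr rfl)))
    · exact (h3 y).1 ((hu y).2 (Or.inr rfl))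
  have hy' : y' = x ∨ y' = y := by
    rcases (h1 u').1 huz' with h3 | h3
    · exact Or.inl ((h3 y').1 ((hu' y').2 (Or.inr rfl)))
    · exact (h3 y').1 ((hu' y').2 (Or.inr rfl))
  rcases hy with h3 | h3
  · rcases hy' with h4 | h4
    · rw [h3, h4]
    · exact h4.symm
  · exact h3

lemma isPr_uniq (h : ZFModel E C J) {x y z z' : M} (h1 : IsPr E x y z) (h2 : IsPr E x y z') :
    z = z' :=
  h.ext _ _ fun w => (h1 w).trans (h2 w).symm

lemma isPr_ex (h : ZFModel E C J) (x y : M) : ∃ z, IsPr E x y z := by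
  obtain ⟨a, ha⟩ := h.pair x x
  obtain ⟨b, hb⟩ := h.pair x y
  obtain ⟨z, hz⟩ := h.pair a b
  refine ⟨z, fun u => ?_⟩
  rw [hz]
  constructor
  · rintro (rfl | rfl)
    · exact Or.inl fun w => by simpa using ha w
    · exact Or.inr hb
  · rintro (h1 | h1)
    · exact Or.inl (h.ext _ _ fun w => by rw [h1, ha]; simp)
    · exact Or.inr (h.ext _ _ fun w => by rw [h1, hb])

lemma ex_union2 (h : ZFModel E C J) (a b : M) : ∃ c, ∀ x, E x c ↔ E x a ∨ E x b := by
  obtain ⟨p, hp⟩ := h.pair a b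
  obtain ⟨c, hc⟩ := h.union p
  refine ⟨c, fun x => ?_⟩
  rw [hc]
  constructor
  · rintro ⟨y, h1, h2⟩
    rcases (hp y).1 h1 with rfl | rfl
    · exact Or.inl h2
    · exact Or.inr h2
  · rintro (h1 | h1)
    · exact ⟨a, (hp a).2 (Or.inl rfl), h1⟩
    · exact ⟨b, (hp b).2 (Or.inr rfl), h1⟩

lemma ex_diff (h : ZFModel E C J) (a b : M) : ∃ c, ∀ d, Rel E .diff a b c d := by
  have hD : D1 E C J (fun v => ¬ E (v 0) (v 1)) := Df.neg (Df.mem 0 1)
  obtain ⟨c, hc⟩ := h.sepD hD (fun _ => b) a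
  exact ⟨c, fun _ x => hc x⟩

lemma ex_prod (h : ZFModel E C J) (a b : M) : ∃ c, ∀ d, Rel E .prod a b c d := by
  -- for every `x` a set of all pairs `(x, y)`, `y` in `b`
  have hD1 : D1 E C J (fun v => IsPr E (v 2) (v 0) (v 1)) := Df.isPr 2 0 1
  have step1 : ∀ x, ∃ w, ∀ y, E y b → ∀ t, IsPr E x y t → E t w := by
    intro x
    obtain ⟨w, hw⟩ := h.collD hD1 (fun _ => x) b (fun y _ => isPr_ex h x y)
    refine ⟨w, fun y hy t ht => ?_⟩
    obtain ⟨t', ht', hp⟩ := hw y hy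
    have : t = t' := isPr_uniq h ht hp
    exact this ▸ ht'
  have hD2 : D1 E C J (fun v => ∀ y, E y (v 2) → ∀ t, IsPr E (v 0) y t → E t (v 1)) :=
    Df.all (Df.imp (Df.mem 0 3) (Df.all (Df.imp (Df.isPr 2 1 0) (Df.mem 0 3))))
  obtain ⟨c', hc'⟩ := h.collD hD2 (fun _ => b) a (fun x _ => step1 x)
  obtain ⟨c2, hc2⟩ := h.union c'
  have hD3 : D1 E C J (fun v => ∃ x y, E x (v 1) ∧ E y (v 2) ∧ IsPr E x y (v 0)) :=
    Df.ex (Df.ex (Df.and (Df.mem 1 3) (Df.and (Df.mem 0 4) (Df.isPr 1 0 2))))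
  obtain ⟨c, hc⟩ := h.sepD hD3 (cons a (fun _ => b)) c2
  refine ⟨c, fun _ t => ?_⟩
  rw [hc]
  constructor
  · exact fun h1 => h1.2
  · intro h1
    refine ⟨?_, h1⟩
    obtain ⟨x, y, hx, hy, hp⟩ := h1
    obtain ⟨w, hw, hall⟩ := hc' x hx
    exact (hc2 t).2 ⟨w, hw, hall y hy t hp⟩

lemma ex_qo (h : ZFModel E C J) (z a S : M) : ∃ b, Rel E .qo z a S b := by
  have hD : D1 E C J (fun v => ∀ x t, E x (v 1) → IsPr E x (v 0) t → E t (v 2)) :=
    Df.all (Df.all (Df.imp (Df.mem 1 3) (Df.imp (Df.isPr 1 2 0) (Df.mem 0 4))))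
  obtain ⟨b, hb⟩ := h.sepD hD (cons z (fun _ => S)) a
  exact ⟨b, fun s => hb s⟩

lemma ex_fld (h : ZFModel E C J) (a : M) : ∃ c, ∀ d d', Rel E .fld a c d d' := by
  obtain ⟨b, hb⟩ := h.union a
  obtain ⟨c, hc⟩ := h.union b
  refine ⟨c, fun _ _ s x r hs hp => ?_⟩
  obtain ⟨u, hus, hu⟩ := isPr_pair h hp
  have hub : E u b := (hb u).2 ⟨s, hs, hus⟩
  exact ⟨(hc x).2 ⟨u, hub, (hu x).2 (Or.inl rfl)⟩, (hc r).2 ⟨u, hub, (hu r).2 (Or.inr rfl)⟩⟩

lemma ex_fst (h : ZFModel E C J) (a S : M) : ∃ b, ∀ d, Rel E .fst a S b d := by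
  have hD : D1 E C J (fun v => ∃ x r, IsPr E x r (v 0) ∧ E x (v 1)) :=
    Df.ex (Df.ex (Df.and (Df.isPr 1 0 2) (Df.mem 1 3)))
  obtain ⟨b, hb⟩ := h.sepD hD (fun _ => S) a
  exact ⟨b, fun _ s => hb s⟩

lemma ex_d2 (h : ZFModel E C J) (a S : M) : ∃ b, ∀ d, Rel E .d2 a S b d := by
  have hD : D1 E C J (fun v => ∃ x y r q t, IsPr E y r q ∧ IsPr E x q (v 0) ∧ IsPr E x r t ∧
      E t (v 1)) :=
    Df.ex (Df.ex (Df.ex (Df.ex (Df.ex (Df.and (Df.isPr 3 2 1) (Df.and (Df.isPr 4 1 5)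
      (Df.and (Df.isPr 4 2 0) (Df.mem 0 6))))))))
  obtain ⟨b, hb⟩ := h.sepD hD (fun _ => S) a
  exact ⟨b, fun _ s => hb s⟩

lemma ex_am (h : ZFModel E C J) (a : M) : ∃ b, ∀ d d', Rel E .am a b d d' := by
  have hD : D1 E C J (fun v => ∃ x y r q, IsPr E y r q ∧ IsPr E x q (v 0) ∧ E x y) :=
    Df.ex (Df.ex (Df.ex (Df.ex (Df.and (Df.isPr 2 1 0) (Df.and (Df.isPr 3 0 4) (Df.mem 3 2))))))
  obtain ⟨b, hb⟩ := h.sepD hD (fun _ => a) a
  exact ⟨b, fun _ _ s => hb s⟩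

lemma ex_ae (h : ZFModel E C J) (a : M) : ∃ b, ∀ d d', Rel E .ae a b d d' := by
  have hD : D1 E C J (fun v => ∃ x r q, IsPr E x r q ∧ IsPr E x q (v 0)) :=
    Df.ex (Df.ex (Df.ex (Df.and (Df.isPr 2 1 0) (Df.isPr 2 0 3))))
  obtain ⟨b, hb⟩ := h.sepD hD (fun _ => a) a
  exact ⟨b, fun _ _ s => hb s⟩

end Pool.Agent.H46.RE
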