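/-
GAIFA : closure lemmas (items (0)-(6)) for Gaifman's theorem for candidates.

Let i : M → M, `Cand E C (fun x y => i x = y)` (file Defs.lean: i preserves the relations of the list, is cofinal, and
i(D ∩ a) = C ∩ i(a), D := i⁻¹[C]).  Both (M,E,C) and (M,E,D) are models of ZF (with J = ∅).
Claim: ∀ φ s, SatM E D φ s ↔ SatM E C φ (i s).

PROOF.  For P, Q : M → Prop let Pres P Q : ∀ a, ∃ S, (∀ s, E s S ↔ E s a ∧ P s) ∧ (∀ s, E s (i S) ↔ E s (i a) ∧ Q s).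
Show Pres (SatM E D φ) (SatM E C φ) for all φ by induction on φ.
 (0) Pres P Q → (∀ s, P s ↔ P' s) → (∀ s, Q s ↔ Q' s) → Pres P' Q'.
 (1) Pres P Q → Pres (¬P) (¬Q): a ∖ S (ex_diff; Rel .diff preserved).
 (2) Pres for ∧: S ∖ (S ∖ T); or Pres T-version with a := S: apply Pres P' Q' to the set S of P.
 (3) ALL.  Pres P Q and P definable with parameters over (M,E,D), then Pres (fun s => ∀ x t, IsPr E x s t → P t)
   (same for Q).  Given a: by collD (in (M,E,D); relation `if some x and pair t = (x,s) have ¬P t then y is such an x`;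
   use y := anything otherwise; classical) there is z with: ∀ s ∈ a, (∃ x t, IsPr x s t ∧ ¬ P t) → ∃ x ∈ z, ∃ t, IsPr x s t ∧
   ¬ P t.  b = z × a (ex_prod), S_b from Pres for b, S from ex_qo z a S_b.  First half clear.
   For s ∈ i a: s ∈ i S ↔ ∀ x t, x ∈ i z → IsPr x s t → t ∈ i S_b (Rel .qo preserved) and t ∈ i b (Rel .prod preserved),
   so ↔ ∀ x ∈ i z, ∀ t, IsPr x s t → Q t.  To remove `x ∈ i z`: let x be arbitrary, x ∈ i z' (cofinality), z'' = z ∪ z'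
   (ex_union2), b'' = z'' × a, S'' from Pres for b''; ex_qo z a S'' =: T and ex_qo z'' a S'' =: T''. By choice of z, T = T''
   (h.ext).  So Rel .qo (i z) (i a) (i S'') (i T) and Rel .qo (i z'') (i a) (i S'') (i T).  If s ∈ i a and all
   x ∈ i z, t = (x,s) have Q t, then t ∈ i S'' (t ∈ i b'' because i z ⊆ i z'' by Rel .sub), so s ∈ i T, so for our x ∈ i z'
   ⊆ i z'': t = (x, s) ∈ i S'', so Q t.
 (4) FST.  Pres (fun s => ∃ x r, IsPr E x r s ∧ D x) (fun s => ∃ x r, IsPr E x r s ∧ C x): c from ex_fld a,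
   T = {x ∈ c : D x} (sepD in (M,E,D)), i T = C ∩ i c (last clause of Cand), S from ex_fst a T; Rel .fst and Rel .fld
   are preserved.
 (5) D2.  Pres P Q → Pres (fun s => ∃ x y r q t, IsPr y r q ∧ IsPr x q s ∧ IsPr x r t ∧ P t) (same with Q): c₁ from ex_fld a,
   c₂ from ex_fld c₁, c = c₁ × c₂, S_c from Pres for c, ex_d2 a S_c.
 (6) am: Pres (fun s => ∃ x y r q, IsPr y r q ∧ IsPr x q s ∧ E x y) (same); ae: same with x = y.
 (7) `x_0 = x_{n+1}`: W n s := ∃ x r, IsPr E x r s ∧ Nth E n r x: n = 0 is (6) ae, n + 1 from n by (5). Pres (W n) (W n).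
 (8) atoms: SatM (.mem i k) s ↔ ¬ ∀ x t, IsPr x s t → ¬ ¬ ∀ y t', IsPr y t t' → ¬ (…): i.e. ∃ x, ∃ y with, on the stack
   t' = (y,(x,s)), y = x_{i} of s, x = x_k of s, y ∈ x.  Use W (i+1), W k (on t), am.  The predicates `on t` are handled by
   pulling back after the quantifier: ∃ x, [x = x_k ∧ ∃ y [y = x_{i+1} ∧ y ∈ x]].  All stages are ALL/∧/¬ of (6),(7).
   (.eq i k) s ↔ ∃ x, [x = x_i ∧ x = x_k];  (.cl i) s ↔ ∃ x, [x = x_i ∧ C x] (by (4));  (.fn ..): False.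
 (9) definability of SatM E D φ in (M,E,D) is `Df.satM` (file DefSat.lean).
Then the claim: s ∈ a := {s} (h.pair), S as in Pres: SatM D φ s ↔ s ∈ S ↔ i s ∈ i S (Rel .mem, .nmem) ↔ SatM C φ (i s)
(i s ∈ i a).
-/
import Mathlib
import Pool.Agent.H46.RE.Pair

set_option autoImplicit false

namespace Pool.Agent.H46.RE

universe u
variable {M : Type u} {E : M → M → Prop} {C D : M → Prop}

/-- `i` carries the class `P` to the class `Q` -/
def Pres (E : M → M → Prop) (i : M → M) (P Q : M → Prop) : Prop :=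
  ∀ a, ∃ S, (∀ s, E s S ↔ E s a ∧ P s) ∧ (∀ s, E s (i S) ↔ E s (i a) ∧ Q s)

lemma Pres.congr {i : M → M} {P Q P' Q' : M → Prop} (h : Pres E i P Q) (h1 : ∀ s, P s ↔ P' s)
    (h2 : ∀ s, Q s ↔ Q' s) : Pres E i P' Q' := by
  intro a
  obtain ⟨S, hS, hS'⟩ := h a
  exact ⟨S, fun s => (hS s).trans (and_congr_right fun _ => h1 s),
    fun s => (hS' s).trans (and_congr_right fun _ => h2 s)⟩

lemma cand_rel {i : M → M} (hi : Cand E C (fun x y => i x = y)) (t : Tag) {a b c d : M}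
    (h : Rel E t a b c d) : Rel E t (i a) (i b) (i c) (i d) :=
  hi.2.2.1 t a b c d _ _ _ _ rfl rfl rfl rfl h

/-- item (1) -/
lemma pres_neg (hC : ZFModel E C (fun _ _ => False)) {i : M → M}
    (hi : Cand E C (fun x y => i x = y)) {P Q : M → Prop} (h : Pres E i P Q) :
    Pres E i (fun s => ¬ P s) (fun s => ¬ Q s) := by
  intro a
  obtain ⟨S, hS, hS'⟩ := h a
  obtain ⟨T, hT⟩ := ex_diff hC a S
  have h1 : ∀ x, E x T ↔ E x a ∧ ¬ E x S := hT a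
  have h2 : ∀ x, E x (i T) ↔ E x (i a) ∧ ¬ E x (i S) := cand_rel hi .diff (hT a)
  refine ⟨T, fun s => ?_, fun s => ?_⟩
  · rw [h1, hS]
    tauto
  · rw [h2, hS']
    tauto

/-- item (2) -/
lemma pres_and {i : M → M} {P Q P' Q' : M → Prop} (h : Pres E i P Q) (h' : Pres E i P' Q') :
    Pres E i (fun s => P s ∧ P' s) (fun s => Q s ∧ Q' s) := by
  intro a
  obtain ⟨S, hS, hS'⟩ := h a
  obtain ⟨T, hT, hT'⟩ := h' S
  refine ⟨T, fun s => ?_, fun s => ?_⟩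
  · rw [hT, hS]
    tauto
  · rw [hT', hS']
    tauto

/-- item (3) -/
lemma pres_all (hD : ZFModel E D (fun _ _ => False)) {i : M → M}
    (hi : Cand E C (fun x y => i x = y)) {P Q : M → Prop} (h : Pres E i P Q)
    (hP : D1 E D (fun _ _ => False) (fun v => P (v 0))) :
    Pres E i (fun s => ∀ x t, IsPr E x s t → P t) (fun s => ∀ x t, IsPr E x s t → Q t) := by
  intro a
  have hdef : D1 E D (fun _ _ => False) (fun v => (∃ t, IsPr E (v 1) (v 0) t ∧ ¬ P t) ∨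
      ¬ ∃ x t, IsPr E x (v 0) t ∧ ¬ P t) := by
    refine Df.or ?_ ?_
    · exact Df.ex (Df.and (Df.isPr _ _ _) (Df.neg (Df.at1 (P := fun _ => P) hP 0)))
    · exact Df.neg (Df.ex (Df.ex (Df.and (Df.isPr _ _ _)
        (Df.neg (Df.at1 (P := fun _ => P) hP 0)))))
  obtain ⟨z, hz⟩ := hD.collD hdef (fun _ => a) a (by
    intro s _
    by_cases hs : ∃ x t, IsPr E x s t ∧ ¬ P t
    · obtain ⟨x, t, h1, h2⟩ := hs
      exact ⟨x, Or.inl ⟨t, h1, h2⟩⟩
    · exact ⟨a, Or.inr hs⟩)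
  have hz' : ∀ s, E s a → (∃ x t, IsPr E x s t ∧ ¬ P t) → ∃ x t, E x z ∧ IsPr E x s t ∧ ¬ P t := by
    intro s hs hex
    obtain ⟨x, hx, h1 | h1⟩ := hz s hs
    · obtain ⟨t, h2, h3⟩ := h1
      exact ⟨x, t, hx, h2, h3⟩
    · exact absurd hex h1
  obtain ⟨b, hb⟩ := ex_prod hD z a
  have hb1 : ∀ t, E t b ↔ ∃ x y, E x z ∧ E y a ∧ IsPr E x y t := hb a
  have hb2 : ∀ t, E t (i b) ↔ ∃ x y, E x (i z) ∧ E y (i a) ∧ IsPr E x y t :=
    cand_rel hi .prod (hb a)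
  obtain ⟨Sb, hSb, hSb'⟩ := h b
  obtain ⟨S, hS⟩ := ex_qo hD z a Sb
  have hS1 : ∀ s, E s S ↔ E s a ∧ ∀ x t, E x z → IsPr E x s t → E t Sb := hS
  have hS2 : ∀ s, E s (i S) ↔ E s (i a) ∧ ∀ x t, E x (i z) → IsPr E x s t → E t (i Sb) :=
    cand_rel hi .qo hS
  refine ⟨S, fun s => ?_, fun s => ?_⟩
  · rw [hS1]
    refine and_congr_right fun hs => ⟨fun H x t hxt => ?_, fun H x t hx hxt => ?_⟩
    · by_contra hP'
      obtain ⟨x', t', hx', ht', hPt'⟩ := hz' s hs ⟨x, t, hxt, hP'⟩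
      exact hPt' ((hSb t').1 (H x' t' hx' ht')).2
    · exact (hSb t).2 ⟨(hb1 t).2 ⟨x, s, hx, hs, hxt⟩, H x t hxt⟩
  · rw [hS2]
    refine and_congr_right fun hs => ⟨fun H x t hxt => ?_, fun H x t hx hxt => ?_⟩
    · obtain ⟨z1, z1', hz1, hxz1⟩ := hi.2.2.2.1 x
      have hz1' : i z1 = z1' := hz1
      subst hz1'
      obtain ⟨z2, hz2⟩ := ex_union2 hD z z1
      obtain ⟨b2, hb2'⟩ := ex_prod hD z2 a
      have hc1 : ∀ t, E t b2 ↔ ∃ x y, E x z2 ∧ E y a ∧ IsPr E x y t := hb2' a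
      have hc2 : ∀ t, E t (i b2) ↔ ∃ x y, E x (i z2) ∧ E y (i a) ∧ IsPr E x y t :=
        cand_rel hi .prod (hb2' a)
      obtain ⟨S2, hS2a, hS2b⟩ := h b2
      obtain ⟨T, hT⟩ := ex_qo hD z a S2
      obtain ⟨T2, hT2⟩ := ex_qo hD z2 a S2
      have hTa : ∀ s, E s T ↔ E s a ∧ ∀ x t, E x z → IsPr E x s t → E t S2 := hT
      have hT2a : ∀ s, E s T2 ↔ E s a ∧ ∀ x t, E x z2 → IsPr E x s t → E t S2 := hT2
      have hTT : T = T2 := by
        refine hD.ext _ _ fun s => ?_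
        rw [hTa, hT2a]
        refine and_congr_right fun hs => ⟨fun H x t hx hxt => ?_, fun H x t hx hxt => ?_⟩
        · refine (hS2a t).2 ⟨(hc1 t).2 ⟨x, s, hx, hs, hxt⟩, ?_⟩
          by_contra hP'
          obtain ⟨x', t', hx', ht', hPt'⟩ := hz' s hs ⟨x, t, hxt, hP'⟩
          exact hPt' ((hS2a t').1 (H x' t' hx' ht')).2
        · exact H x t ((hz2 x).2 (Or.inl hx)) hxt
      subst hTT
      have hTb : ∀ s, E s (i T) ↔ E s (i a) ∧ ∀ x t, E x (i z) → IsPr E x s t → E t (i S2) :=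
        cand_rel hi .qo hT
      have hT2b : ∀ s, E s (i T) ↔ E s (i a) ∧ ∀ x t, E x (i z2) → IsPr E x s t → E t (i S2) :=
        cand_rel hi .qo hT2
      have hsub1 : ∀ x, E x (i z) → E x (i z2) :=
        cand_rel hi .sub (a := z) (b := z2) (c := z) (d := z)
          (show ∀ x, E x z → E x z2 from fun x hx => (hz2 x).2 (Or.inl hx))
      have hsub2 : ∀ x, E x (i z1) → E x (i z2) :=
        cand_rel hi .sub (a := z1) (b := z2) (c := z) (d := z)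
          (show ∀ x, E x z1 → E x z2 from fun x hx => (hz2 x).2 (Or.inr hx))
      have hsT : E s (i T) := (hTb s).2 ⟨hs, fun y u hy hyu =>
        (hS2b u).2 ⟨(hc2 u).2 ⟨y, s, hsub1 y hy, hs, hyu⟩, ((hSb' u).1 (H y u hy hyu)).2⟩⟩
      exact ((hS2b t).1 (((hT2b s).1 hsT).2 x t (hsub2 x hxz1) hxt)).2
    · exact (hSb' t).2 ⟨(hb2 t).2 ⟨x, s, hx, hs, hxt⟩, H x t hxt⟩

/-- item (4) -/
lemma pres_fst (hD : ZFModel E D (fun _ _ => False)) {i : M → M}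
    (hi : Cand E C (fun x y => i x = y)) (hDC : ∀ x, D x ↔ C (i x)) :
    Pres E i (fun s => ∃ x r, IsPr E x r s ∧ D x) (fun s => ∃ x r, IsPr E x r s ∧ C x) := by
  intro a
  obtain ⟨c, hc⟩ := ex_fld hD a
  have hc1 : ∀ s x r, E s a → IsPr E x r s → E x c ∧ E r c := hc a a
  have hc2 : ∀ s x r, E s (i a) → IsPr E x r s → E x (i c) ∧ E r (i c) :=
    cand_rel hi .fld (hc a a)
  obtain ⟨T, hT⟩ := hD.sepD (P := fun v => D (v 0)) (Df.cl 0) (fun _ => a) c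
  have hT1 : ∀ x, E x T ↔ E x c ∧ D x := hT
  have hT2 : ∀ y, E y (i T) ↔ E y (i c) ∧ C y := by
    refine hi.2.2.2.2 c T (i c) (i T) rfl rfl fun x => ?_
    rw [hT1, hDC]
    refine and_congr_right fun _ => ⟨fun H => ⟨i x, rfl, H⟩, ?_⟩
    rintro ⟨y, hy, hCy⟩
    have hy' : i x = y := hy
    rw [hy']
    exact hCy
  obtain ⟨S, hS⟩ := ex_fst hD a T
  have hS1 : ∀ s, E s S ↔ E s a ∧ ∃ x r, IsPr E x r s ∧ E x T := hS a
  have hS2 : ∀ s, E s (i S) ↔ E s (i a) ∧ ∃ x r, IsPr E x r s ∧ E x (i T) :=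
    cand_rel hi .fst (hS a)
  refine ⟨S, fun s => ?_, fun s => ?_⟩
  · rw [hS1]
    refine and_congr_right fun hs => exists_congr fun x => exists_congr fun r =>
      and_congr_right fun hx => ?_
    rw [hT1]
    exact ⟨fun H => H.2, fun H => ⟨(hc1 s x r hs hx).1, H⟩⟩
  · rw [hS2]
    refine and_congr_right fun hs => exists_congr fun x => exists_congr fun r =>
      and_congr_right fun hx => ?_
    rw [hT2]
    exact ⟨fun H => H.2, fun H => ⟨(hc2 s x r hs hx).1, H⟩⟩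

/-- item (5) -/
lemma pres_d2 (hC : ZFModel E C (fun _ _ => False)) {i : M → M}
    (hi : Cand E C (fun x y => i x = y)) {P Q : M → Prop} (h : Pres E i P Q) :
    Pres E i (fun s => ∃ x y r q t, IsPr E y r q ∧ IsPr E x q s ∧ IsPr E x r t ∧ P t)
      (fun s => ∃ x y r q t, IsPr E y r q ∧ IsPr E x q s ∧ IsPr E x r t ∧ Q t) := by
  intro a
  obtain ⟨c1, hc1⟩ := ex_fld hC a
  obtain ⟨c2, hc2⟩ := ex_fld hC c1
  have h1 : ∀ s x r, E s a → IsPr E x r s → E x c1 ∧ E r c1 := hc1 a a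
  have h1' : ∀ s x r, E s (i a) → IsPr E x r s → E x (i c1) ∧ E r (i c1) :=
    cand_rel hi .fld (hc1 a a)
  have h2 : ∀ s x r, E s c1 → IsPr E x r s → E x c2 ∧ E r c2 := hc2 a a
  have h2' : ∀ s x r, E s (i c1) → IsPr E x r s → E x (i c2) ∧ E r (i c2) :=
    cand_rel hi .fld (hc2 a a)
  obtain ⟨c, hc⟩ := ex_prod hC c1 c2
  have h3 : ∀ t, E t c ↔ ∃ x y, E x c1 ∧ E y c2 ∧ IsPr E x y t := hc a
  have h3' : ∀ t, E t (i c) ↔ ∃ x y, E x (i c1) ∧ E y (i c2) ∧ IsPr E x y t :=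
    cand_rel hi .prod (hc a)
  obtain ⟨Sc, hSc, hSc'⟩ := h c
  obtain ⟨S, hS⟩ := ex_d2 hC a Sc
  have hS1 : ∀ s, E s S ↔ E s a ∧ ∃ x y r q t, IsPr E y r q ∧ IsPr E x q s ∧ IsPr E x r t ∧
    E t Sc := hS a
  have hS2 : ∀ s, E s (i S) ↔ E s (i a) ∧ ∃ x y r q t, IsPr E y r q ∧ IsPr E x q s ∧
    IsPr E x r t ∧ E t (i Sc) := cand_rel hi .d2 (hS a)
  refine ⟨S, fun s => ?_, fun s => ?_⟩
  · rw [hS1]
    refine and_congr_right fun hs => ⟨?_, ?_⟩
    · rintro ⟨x, y, r, q, t, e1, e2, e3, e4⟩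
      exact ⟨x, y, r, q, t, e1, e2, e3, ((hSc t).1 e4).2⟩
    · rintro ⟨x, y, r, q, t, e1, e2, e3, e4⟩
      have g1 := h1 s x q hs e2
      have g2 := h2 q y r g1.2 e1
      exact ⟨x, y, r, q, t, e1, e2, e3, (hSc t).2 ⟨(h3 t).2 ⟨x, r, g1.1, g2.2, e3⟩, e4⟩⟩
  · rw [hS2]
    refine and_congr_right fun hs => ⟨?_, ?_⟩
    · rintro ⟨x, y, r, q, t, e1, e2, e3, e4⟩
      exact ⟨x, y, r, q, t, e1, e2, e3, ((hSc' t).1 e4).2⟩
    · rintro ⟨x, y, r, q, t, e1, e2, e3, e4⟩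
      have g1 := h1' s x q hs e2
      have g2 := h2' q y r g1.2 e1
      exact ⟨x, y, r, q, t, e1, e2, e3, (hSc' t).2 ⟨(h3' t).2 ⟨x, r, g1.1, g2.2, e3⟩, e4⟩⟩

/-- item (6) -/
lemma pres_am (hC : ZFModel E C (fun _ _ => False)) {i : M → M}
    (hi : Cand E C (fun x y => i x = y)) :
    Pres E i (fun s => ∃ x y r q, IsPr E y r q ∧ IsPr E x q s ∧ E x y)
      (fun s => ∃ x y r q, IsPr E y r q ∧ IsPr E x q s ∧ E x y) := by
  intro a
  obtain ⟨S, hS⟩ := ex_am hC a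
  exact ⟨S, hS a a, cand_rel hi .am (hS a a)⟩

/-- item (6) -/
lemma pres_ae (hC : ZFModel E C (fun _ _ => False)) {i : M → M}
    (hi : Cand E C (fun x y => i x = y)) :
    Pres E i (fun s => ∃ x r q, IsPr E x r q ∧ IsPr E x q s)
      (fun s => ∃ x r q, IsPr E x r q ∧ IsPr E x q s) := by
  intro a
  obtain ⟨S, hS⟩ := ex_ae hC a
  exact ⟨S, hS a a, cand_rel hi .ae (hS a a)⟩

end Pool.Agent.H46.RE
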