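/-
GAIF : Gaifman's theorem for candidates.

Let i : M → M, `Cand E C (fun x y => i x = y)` (file Defs.lean: i preserves the relations of the list, is cofinal, and
i(D ∩ a) = C ∩ i(a), D := i⁻¹[C]).  Both (M,E,C) and (M,E,D) are models of ZF (with J = ∅).
Claim: ∀ φ s, SatM E D φ s ↔ SatM E C φ (i s).

PROOF.  For P, Q : M → Prop let Pres P Q : ∀ a, ∃ S, (∀ s, E s S ↔ E s a ∧ P s) ∧ (∀ s, E s (i S) ↔ E s (i a) ∧ Q s).
Show Pres (SatM E D φ) (SatM E C φ) for all φ by induction on φ.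
 (items (0)-(6) are the lemmas of GaifA.lean; `cand_rel` applies the preservation of the list)
 (0) Pres P Q → (∀ s, P s ↔ P' s) → (∀ s, Q s ↔ Q' s) → Pres P' Q'.
 (1) Pres P Q → Pres (¬P) (¬Q): a ∖ S (ex_diff; Rel .diff preserved).
 (2) Pres for ∧: S ∖ (S ∖ T); or Pres T-version with a := S: apply Pres P' Q' to the set S of P.
 (3) ALL.  Pres P Q and P definable with parameters over (M,E,D), then Pres (fun s => ∀ x t, IsPr E x s t → P t)
   (same for Q).  Given a: by collD (in (M,E,D); relation `if some x and pair t = (x,s) have ¬P t then y is such an x`;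
   use y := anything otherwise; classical) there is z with: ∀ s ∈ a, (∃ x t, IsPr x s t ∧ ¬ P t) → ∃ x ∈ z, ∃ t, IsPr x s t ∧
   ¬ P t.  b = z × a (ex_prod), S_b from Pres for b, S from ex_qo z a S_b.  First half clear.
   For s ∈ i a: s ∈ i S ↔ ∀ x t, x ∈ i z → IsPr x s t → t ∈ i S_b (Rel .qo preserved) and t ∈ i b (Rel .prod preserved),
   so ↔ ∀ x ∈ i z, ∀ t, IsPr x s t → Q t.  To remove `x ∈ i z`: let x be arbitrary, x ∈ i z' (cofinality), z'' = z ∪ z'
   (ex_union2), b'' = z'' × a, S'' from Pres for b''; ex_qo z a S'' =: T and ex_qo z'' a S'' =: T''. By choice of z, T = T''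
   (h.ext).  So Rel .qo (i z) (i a) (i S'') (i T) and Rel .qo (i z'') (i a) (i S'') (i T).  If s ∈ i a and all
   x ∈ i z, t = (x,s) have Q t, then t ∈ i S'' (t ∈ i b'' because i z ⊆ i z'' by Rel .sub), so s ∈ i T, so for our x ∈ i z'
   ⊆ i z'': t = (x, s) ∈ i S'', so Q t.
 (4) FST.  Pres (fun s => ∃ x r, IsPr E x r s ∧ D x) (fun s => ∃ x r, IsPr E x r s ∧ C x): c from ex_fld a,
   T = {x ∈ c : D x} (sepD in (M,E,D)), i T = C ∩ i c (last clause of Cand), S from ex_fst a T; Rel .fst and Rel .fld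
   are preserved.
 (5) D2.  Pres P Q → Pres (fun s => ∃ x y r q t, IsPr y r q ∧ IsPr x q s ∧ IsPr x r t ∧ P t) (same with Q): c₁ from ex_fld a,
   c₂ from ex_fld c₁, c = c₁ × c₂, S_c from Pres for c, ex_d2 a S_c.
 (6) am: Pres (fun s => ∃ x y r q, IsPr y r q ∧ IsPr x q s ∧ E x y) (same); ae: same with x = y.
 (7) `x_0 = x_{n+1}`: W n s := ∃ x r, IsPr E x r s ∧ Nth E n r x: n = 0 is (6) ae, n + 1 from n by (5). Pres (W n) (W n).
 (8) atoms: SatM (.mem i k) s ↔ ¬ ∀ x t, IsPr x s t → ¬ ¬ ∀ y t', IsPr y t t' → ¬ (…): i.e. ∃ x, ∃ y with, on the stack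
   t' = (y,(x,s)), y = x_{i} of s, x = x_k of s, y ∈ x.  Use W (i+1), W k (on t), am.  The predicates `on t` are handled by
   pulling back after the quantifier: ∃ x, [x = x_k ∧ ∃ y [y = x_{i+1} ∧ y ∈ x]].  All stages are ALL/∧/¬ of (6),(7).
   (.eq i k) s ↔ ∃ x, [x = x_i ∧ x = x_k];  (.cl i) s ↔ ∃ x, [x = x_i ∧ C x] (by (4));  (.fn ..): False.
 (9) definability of SatM E D φ in (M,E,D) is `Df.satM` (file DefSat.lean).
Then the claim: s ∈ a := {s} (h.pair), S as in Pres: SatM D φ s ↔ s ∈ S ↔ i s ∈ i S (Rel .mem, .nmem) ↔ SatM C φ (i s)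
(i s ∈ i a).
-/
import Mathlib
import Pool.Agent.H46.RE.GaifA
import Pool.Agent.H46.RE.DefSat

set_option autoImplicit false

namespace Pool.Agent.H46.RE

universe u
variable {M : Type u} {E : M → M → Prop} {C D : M → Prop}

/-- preserved and definable in `(M, E, D)` -/
structure PD (E : M → M → Prop) (D : M → Prop) (i : M → M) (P Q : M → Prop) : Prop where
  pres : Pres E i P Q
  df : D1 E D (fun _ _ => False) (fun v => P (v 0))

lemma PD.congr {i : M → M} {P Q P' Q' : M → Prop} (h : PD E D i P Q) (h1 : ∀ s, P s ↔ P' s)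
    (h2 : ∀ s, Q s ↔ Q' s) : PD E D i P' Q' :=
  ⟨h.pres.congr h1 h2, h.df.congr fun _ v => h1 (v 0)⟩

lemma PD.neg (hC : ZFModel E C (fun _ _ => False)) {i : M → M}
    (hi : Cand E C (fun x y => i x = y)) {P Q : M → Prop} (h : PD E D i P Q) :
    PD E D i (fun s => ¬ P s) (fun s => ¬ Q s) :=
  ⟨pres_neg hC hi h.pres, h.df.neg⟩

lemma PD.and {i : M → M} {P Q P' Q' : M → Prop} (h : PD E D i P Q) (h' : PD E D i P' Q') :
    PD E D i (fun s => P s ∧ P' s) (fun s => Q s ∧ Q' s) :=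
  ⟨pres_and h.pres h'.pres, h.df.and h'.df⟩

lemma PD.all (hD : ZFModel E D (fun _ _ => False)) {i : M → M}
    (hi : Cand E C (fun x y => i x = y)) {P Q : M → Prop} (h : PD E D i P Q) :
    PD E D i (fun s => ∀ x t, IsPr E x s t → P t) (fun s => ∀ x t, IsPr E x s t → Q t) := by
  refine ⟨pres_all hD hi h.pres h.df, ?_⟩
  refine Df.all ?_
  refine Df.all ?_
  refine Df.imp (Df.isPr 1 2 0) ?_
  exact Df.at1 (P := fun _ => P) h.df 0

lemma PD.ex (hC : ZFModel E C (fun _ _ => False)) (hD : ZFModel E D (fun _ _ => False))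
    {i : M → M} (hi : Cand E C (fun x y => i x = y)) {P Q : M → Prop} (h : PD E D i P Q) :
    PD E D i (fun s => ∃ x t, IsPr E x s t ∧ P t) (fun s => ∃ x t, IsPr E x s t ∧ Q t) :=
  ((((h.neg hC hi).all hD hi).neg hC hi)).congr (fun s => by push Not; rfl)
    (fun s => by push Not; rfl)

/-- the top entry of the stack is the `n`-th entry of the rest -/
def Wn (E : M → M → Prop) (n : ℕ) (s : M) : Prop := ∃ x r, IsPr E x r s ∧ Nth E n r x

lemma wn_pair (hC : ZFModel E C (fun _ _ => False)) (n : ℕ) {x s t : M} (h : IsPr E x s t) :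
    Wn E n t ↔ Nth E n s x := by
  constructor
  · rintro ⟨x', r, h1, h2⟩
    obtain ⟨rfl, rfl⟩ := isPr_inj hC h h1
    exact h2
  · intro h2
    exact ⟨x, s, h, h2⟩

lemma wn_pd (hC : ZFModel E C (fun _ _ => False))
    {i : M → M} (hi : Cand E C (fun x y => i x = y)) (n : ℕ) : PD E D i (Wn E n) (Wn E n) := by
  refine ⟨?_, ?_⟩
  · induction n with
    | zero =>
      have h0 : ∀ s, (∃ x r q, IsPr E x r q ∧ IsPr E x q s) ↔ Wn E 0 s := by
        intro s
        constructor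
        · rintro ⟨x, r, q, h1, h2⟩
          exact ⟨x, q, h2, r, h1⟩
        · rintro ⟨x, q, h2, r, h1⟩
          exact ⟨x, r, q, h1, h2⟩
      exact (pres_ae hC hi).congr h0 h0
    | succ n ih =>
      have h0 : ∀ s, (∃ x y r q t, IsPr E y r q ∧ IsPr E x q s ∧ IsPr E x r t ∧ Wn E n t) ↔
          Wn E (n + 1) s := by
        intro s
        constructor
        · rintro ⟨x, y, r, q, t, h1, h2, h3, h4⟩
          exact ⟨x, q, h2, y, r, h1, (wn_pair hC n h3).1 h4⟩
        · rintro ⟨x, q, h2, y, r, h1, h4⟩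
          obtain ⟨t, ht⟩ := isPr_ex hC x r
          exact ⟨x, y, r, q, t, h1, h2, ht, (wn_pair hC n ht).2 h4⟩
      exact (pres_d2 hC hi ih).congr h0 h0
  · show D1 E D (fun _ _ => False) (fun v => ∃ x r, IsPr E x r (v 0) ∧ Nth E n r x)
    refine Df.ex ?_
    refine Df.ex ?_
    exact (Df.isPr 1 0 2).and (Df.nth n 0 1)

lemma satM_pd (hC : ZFModel E C (fun _ _ => False)) (hD : ZFModel E D (fun _ _ => False))
    {i : M → M} (hi : Cand E C (fun x y => i x = y)) (hDC : ∀ x, D x ↔ C (i x)) (φ : Fml) :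
    PD E D i (SatM E D φ) (SatM E C φ) := by
  induction φ with
  | mem a b =>
    have ham : PD E D i (fun s => ∃ x y r q, IsPr E y r q ∧ IsPr E x q s ∧ E x y)
        (fun s => ∃ x y r q, IsPr E y r q ∧ IsPr E x q s ∧ E x y) := by
      refine ⟨pres_am hC hi, ?_⟩
      (repeat' (first | exact Df.mem _ _ | exact Df.eq _ _ | exact Df.cl _ | exact Df.fn _ _ | exact Df.isPr _ _ _ | exact Df.top | exact Df.bot | refine Df.neg ?_ | refine Df.and ?_ ?_ | refine Df.or ?_ ?_ | refine Df.iff ?_ ?_ | refine Df.imp ?_ ?_ | refine Df.ex ?_ | refine Df.all ?_))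
    have h1 := ((((wn_pd (D := D) hC hi (a + 1)).and ham).ex hC hD hi))
    have h2 := ((wn_pd (D := D) hC hi b).and h1).ex hC hD hi
    have h0 : ∀ s, (∃ x t, IsPr E x s t ∧ Wn E b t ∧ ∃ y t', IsPr E y t t' ∧
        Wn E (a + 1) t' ∧ ∃ x y r q, IsPr E y r q ∧ IsPr E x q t' ∧ E x y) ↔
        (∃ x y, Nth E a s x ∧ Nth E b s y ∧ E x y) := by
      intro s
      constructor
      · rintro ⟨x, t, ht, hb, y, t', ht', ha, x', y', r, q, h3, h4, h5⟩
        obtain ⟨rfl, rfl⟩ := isPr_inj hC ht' h4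
        obtain ⟨rfl, rfl⟩ := isPr_inj hC ht h3
        have ha' := (wn_pair hC _ ht').1 ha
        obtain ⟨z, r, h6, h7⟩ := ha'
        obtain ⟨rfl, rfl⟩ := isPr_inj hC ht h6
        exact ⟨y, x, h7, (wn_pair hC _ ht).1 hb, h5⟩
      · rintro ⟨y, x, ha, hb, hxy⟩
        obtain ⟨t, ht⟩ := isPr_ex hC x s
        obtain ⟨t', ht'⟩ := isPr_ex hC y t
        exact ⟨x, t, ht, (wn_pair hC _ ht).2 hb, y, t', ht', (wn_pair hC _ ht').2 ⟨x, s, ht, ha⟩,
          y, x, s, t, ht, ht', hxy⟩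
    exact h2.congr h0 h0
  | eq a b =>
    have h2 := ((wn_pd (D := D) hC hi a).and (wn_pd (D := D) hC hi b)).ex hC hD hi
    have h0 : ∀ s, (∃ x t, IsPr E x s t ∧ Wn E a t ∧ Wn E b t) ↔
        (∃ x y, Nth E a s x ∧ Nth E b s y ∧ x = y) := by
      intro s
      constructor
      · rintro ⟨x, t, ht, ha, hb⟩
        exact ⟨x, x, (wn_pair hC _ ht).1 ha, (wn_pair hC _ ht).1 hb, rfl⟩
      · rintro ⟨x, y, ha, hb, rfl⟩
        obtain ⟨t, ht⟩ := isPr_ex hC x s
        exact ⟨x, t, ht, (wn_pair hC _ ht).2 ha, (wn_pair hC _ ht).2 hb⟩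
    exact h2.congr h0 h0
  | cl a =>
    have hf : PD E D i (fun s => ∃ x r, IsPr E x r s ∧ D x)
        (fun s => ∃ x r, IsPr E x r s ∧ C x) := by
      refine ⟨pres_fst hD hi hDC, ?_⟩
      refine Df.ex ?_
      refine Df.ex ?_
      exact (Df.isPr 1 0 2).and (Df.cl 1)
    have h2 := ((wn_pd (D := D) hC hi a).and hf).ex hC hD hi
    have h0 : ∀ (U : M → Prop) (s : M),
        (∃ x t, IsPr E x s t ∧ Wn E a t ∧ ∃ x r, IsPr E x r t ∧ U x) ↔
        (∃ x, Nth E a s x ∧ U x) := by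
      intro U s
      constructor
      · rintro ⟨x, t, ht, ha, x', r, h3, h4⟩
        obtain ⟨rfl, rfl⟩ := isPr_inj hC ht h3
        exact ⟨x, (wn_pair hC _ ht).1 ha, h4⟩
      · rintro ⟨x, ha, hU⟩
        obtain ⟨t, ht⟩ := isPr_ex hC x s
        exact ⟨x, t, ht, (wn_pair hC _ ht).2 ha, x, s, ht, hU⟩
    exact h2.congr (h0 D) (h0 C)
  | fn a b =>
    have h := (wn_pd (D := D) hC hi 0).and ((wn_pd (D := D) hC hi 0).neg hC hi)
    exact h.congr (fun s => iff_of_false (fun h => h.2 h.1) (fun h => h))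
      (fun s => iff_of_false (fun h => h.2 h.1) (fun h => h))
  | neg φ ih => exact ih.neg hC hi
  | and φ ψ ih ih' => exact ih.and ih'
  | all φ ih => exact ih.all hD hi

theorem gaifman (hC : ZFModel E C (fun _ _ => False)) (hD : ZFModel E D (fun _ _ => False))
    {i : M → M} (hi : Cand E C (fun x y => i x = y)) (hDC : ∀ x, D x ↔ C (i x)) (φ : Fml) (s : M) :
    SatM E D φ s ↔ SatM E C φ (i s) := by
  obtain ⟨a, ha⟩ := hC.pair s s
  obtain ⟨S, hS, hS'⟩ := (satM_pd hC hD hi hDC φ).pres a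
  have hsa : E s a := (ha s).2 (Or.inl rfl)
  have hisa : E (i s) (i a) := cand_rel hi .mem (a := s) (b := a) (c := s) (d := s) hsa
  constructor
  · intro h
    have h1 : E s S := (hS s).2 ⟨hsa, h⟩
    have h2 : E (i s) (i S) := cand_rel hi .mem (a := s) (b := S) (c := s) (d := s) h1
    exact ((hS' _).1 h2).2
  · intro h
    by_contra hcon
    have h1 : ¬ E s S := fun h1 => hcon ((hS s).1 h1).2
    have h2 : ¬ E (i s) (i S) := cand_rel hi .nmem (a := s) (b := S) (c := s) (d := s) h1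
    exact h2 ((hS' _).2 ⟨hisa, h⟩)

end Pool.Agent.H46.RE
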