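/-
RANK : comparison of ranks without ordinals; the hereditarily fixed sets form a set; `j` is cofinal.

PROOFS.  (E, C, J) is a ZFModel with J = graph of j; definability of predicates with j: write `J (v i) (v k)` (that is
`j (v i) = v k`), e.g. j y = y is `J y y`.
* RSim R: `∀ p a b, E p R → IsPr E a b p → ∀ u, E u a → ∃ v q, E v b ∧ E q R ∧ IsPr E u v q`.
  RLe x y := ∃ R p, RSim R ∧ IsPr E x y p ∧ E p R.   (definable)
* rle_iff: RLe x y ↔ ∀ u ∈ x, ∃ v ∈ y, RLe u v.  (→) take the same R.  (←) by collD there is a set F such that for every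
  u ∈ x some R ∈ F is a simulation containing a pair (u, v), v ∈ y; let F' = {R ∈ F : RSim R} (sepD), R' = ⋃ F' ∪ {(x,y)}
  (h.union, h.pair): a simulation.
* rle_tot: RLe x y ∨ ∃ u ∈ x, RLe y u.  ∈-induction on x (predicate ∀ y, …): if ¬ RLe x y there is u ∈ x with
  ¬ RLe u v for all v ∈ y; by induction (for u and v) ∃ w ∈ u, RLe v w, for every v ∈ y; so RLe y u by rle_iff.
* rle_mem: E w u → RLe w u, ∈-induction on w (predicate ∀ u, E w u → RLe w u): z ∈ w: v := w ∈ u, RLe z w by IH.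
  rle_refl, rle_trans if needed, by ∈-induction and rle_iff.
* rle_bdd: ∀ x, ∃ b, ∀ y, RLe y x → E y b.  ∈-induction on x: collD gives F with: ∀ u ∈ x ∃ b ∈ F, ∀ y, RLe y u → y ∈ b.
  If RLe h x then every v ∈ h has RLe v u for some u ∈ x, so v ∈ ⋃F: h ∈ power set of ⋃F.
* elementarity: RLe x y → RLe (j x) (j y): RLe E is Df over the structures with empty class and empty J, so
  `he φ v` applies (see `elem_df` below, give it the predicate).
* j is injective and E x y ↔ E (j x) (j y)  (elem_df with Df.eq, Df.mem).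
* her_fix: Her x (with fix y := j y = y) and RLe y x imply j y = y.  ∈-induction on x (predicate
  Her x → ∀ y, RLe y x → J y y; elements of x are Her with the same t): for v ∈ y some u ∈ x has RLe v u, so j v = v.
  Then y ⊆ j y.  If z ∈ j y: RLe (j y) (j x), j x = x (x ∈ t), so RLe z u for some u ∈ x, so j z = z by IH, so
  j z = z ∈ j y, z ∈ y.  h.ext.
* hered_bounded: x₀ with j x₀ ≠ x₀.  If Her x: not RLe x₀ x (her_fix), so by rle_tot RLe x u for some u ∈ x₀; bound from
  rle_bdd for all u ∈ x₀ (collD + union), or RLe x x₀ via rle_iff / rle_mem / transitivity.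
* cofinal: ∀ y, ∃ x, y ∈ j x.  ∈-induction on y: for u ∈ y there is x_u with u ∈ j x_u; collD: F with ∀ u ∈ y ∃ x ∈ F,
  u ∈ j x.  X = ⋃F; x ⊆ X implies j x ⊆ j X (elem_df); so y ⊆ j X, and y ∈ j (power set of X) (elem_df for
  p is the power set of X).
-/
import Mathlib
import Pool.Agent.H46.RE.Base
import Pool.Agent.H46.RE.Pair

set_option autoImplicit false

namespace Pool.Agent.H46.RE

universe u
variable {M : Type u} {E : M → M → Prop} {C : M → Prop}

/-- use of elementarity for a parameter-free predicate definable from `E` alone -/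
lemma elem_df {j : M → M} (he : Elem E j) {P : (ℕ → M) → Prop}
    (hP : D1 E (fun _ => False) (fun _ _ => False) P) (v : ℕ → M) :
    P v ↔ P (fun n => j (v n)) := by
  obtain ⟨φ, hφ⟩ := hP
  exact ((hφ () v).symm.trans (he φ v)).trans (hφ () _)

/-- `R` is a simulation -/
def RSim (E : M → M → Prop) (R : M) : Prop :=
  ∀ p a b, E p R → IsPr E a b p → ∀ u, E u a → ∃ v q, E v b ∧ E q R ∧ IsPr E u v q

/-- the rank of `x` is at most the rank of `y` -/
def RLe (E : M → M → Prop) (x y : M) : Prop := ∃ R p, RSim E R ∧ IsPr E x y p ∧ E p R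

section Gen

lemma Df.rsim {K : Type*} {U' : K → M → Prop} {J' : K → M → M → Prop} (i : ℕ) :
    Df E U' J' (fun _ v => RSim E (v i)) := by
  unfold RSim
  repeat' (first | exact Df.mem _ _ | exact Df.eq _ _ | exact Df.fn _ _ | exact Df.isPr _ _ _ | refine Df.neg ?_ | refine Df.and ?_ ?_ | refine Df.or ?_ ?_ | refine Df.iff ?_ ?_ | refine Df.imp ?_ ?_ | refine Df.ex ?_ | refine Df.all ?_)

lemma Df.rle {K : Type*} {U' : K → M → Prop} {J' : K → M → M → Prop} (i k : ℕ) :
    Df E U' J' (fun _ v => RLe E (v i) (v k)) := by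
  unfold RLe RSim
  repeat' (first | exact Df.mem _ _ | exact Df.eq _ _ | exact Df.fn _ _ | exact Df.isPr _ _ _ | refine Df.neg ?_ | refine Df.and ?_ ?_ | refine Df.or ?_ ?_ | refine Df.iff ?_ ?_ | refine Df.imp ?_ ?_ | refine Df.ex ?_ | refine Df.all ?_)

variable {J : M → M → Prop}

lemma rle_iff (h : ZFModel E C J) (x y : M) :
    RLe E x y ↔ ∀ u, E u x → ∃ v, E v y ∧ RLe E u v := by
  constructor
  · rintro ⟨R, p, hR, hp, hpR⟩ u hu
    obtain ⟨v, q, h1, h2, h3⟩ := hR p x y hpR hp u hu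
    exact ⟨v, h1, R, q, hR, h3, h2⟩
  · intro hx
    obtain ⟨F, hF⟩ := h.collD
      (P := fun w => RSim E (w 1) ∧ ∃ v q, E v (w 2) ∧ IsPr E (w 0) v q ∧ E q (w 1))
      ((Df.rsim 1).and (by repeat' (first | exact Df.mem _ _ | exact Df.eq _ _ | exact Df.fn _ _ | exact Df.isPr _ _ _ | refine Df.neg ?_ | refine Df.and ?_ ?_ | refine Df.or ?_ ?_ | refine Df.iff ?_ ?_ | refine Df.imp ?_ ?_ | refine Df.ex ?_ | refine Df.all ?_))) (fun _ => y) x (fun u hu => by
        obtain ⟨v, h1, R, q, h2, h3, h4⟩ := hx u hu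
        exact ⟨R, h2, v, q, h1, h3, h4⟩)
    obtain ⟨F', hF'⟩ := h.sepD (P := fun w => RSim E (w 0)) (Df.rsim 0) (fun _ => y) F
    obtain ⟨R1, hR1⟩ := h.union F'
    obtain ⟨p, hp⟩ := isPr_ex h x y
    obtain ⟨s, hs⟩ := h.pair p p
    obtain ⟨t, ht⟩ := h.pair R1 s
    obtain ⟨R', hR'⟩ := h.union t
    have hin : ∀ z, E z R' ↔ E z R1 ∨ z = p := by
      intro z
      rw [hR']
      constructor
      · rintro ⟨r, h1, h2⟩
        rcases (ht r).1 h1 with rfl | rfl
        · exact Or.inl h2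
        · exact Or.inr ((hs z).1 h2 |>.elim id id)
      · rintro (h1 | rfl)
        · exact ⟨R1, (ht R1).2 (Or.inl rfl), h1⟩
        · exact ⟨s, (ht s).2 (Or.inr rfl), (hs z).2 (Or.inl rfl)⟩
    have hR1' : ∀ z, E z R1 ↔ ∃ R, (E R F ∧ RSim E R) ∧ E z R := by
      intro z
      rw [hR1]
      constructor
      · rintro ⟨R, h1, h2⟩
        exact ⟨R, (hF' R).1 h1, h2⟩
      · rintro ⟨R, h1, h2⟩
        exact ⟨R, (hF' R).2 h1, h2⟩
    refine ⟨R', p, ?_, hp, (hin p).2 (Or.inr rfl)⟩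
    intro p' a b hp' hab u hu
    rcases (hin p').1 hp' with h1 | h1
    · obtain ⟨R, ⟨h2, h3⟩, h4⟩ := (hR1' p').1 h1
      obtain ⟨v, q, h5, h6, h7⟩ := h3 p' a b h4 hab u hu
      exact ⟨v, q, h5, (hin q).2 (Or.inl ((hR1' q).2 ⟨R, ⟨h2, h3⟩, h6⟩)), h7⟩
    · rw [h1] at hab
      obtain ⟨e1, e2⟩ := isPr_inj h hab hp
      rw [e1] at hu
      obtain ⟨R, h2, h3, v, q, h4, h5, h6⟩ := hF u hu
      rw [e2]
      exact ⟨v, q, h4, (hin q).2 (Or.inl ((hR1' q).2 ⟨R, ⟨h2, h3⟩, h6⟩)), h5⟩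

lemma rle_tot (h : ZFModel E C J) (x y : M) : RLe E x y ∨ ∃ u, E u x ∧ RLe E y u := by
  have key := h.indD
    (P := fun w => ∀ y, RLe E (w 0) y ∨ ∃ u, E u (w 0) ∧ RLe E y u)
    (Df.all (P := fun _ w y => RLe E (w 0) y ∨ ∃ u, E u (w 0) ∧ RLe E y u)
      ((Df.rle 1 0).or (Df.ex (P := fun _ w u => E u (w 1) ∧ RLe E (w 0) u)
        ((Df.mem 0 2).and (Df.rle 1 0)))))
    (fun _ => x) (by
      intro x ih y
      change RLe E x y ∨ ∃ u, E u x ∧ RLe E y u
      by_cases hxy : RLe E x y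
      · exact Or.inl hxy
      · right
        rw [rle_iff h] at hxy
        push Not at hxy
        obtain ⟨u, hu, hno⟩ := hxy
        refine ⟨u, hu, (rle_iff h y u).2 ?_⟩
        intro v hv
        have h1 : RLe E u v ∨ ∃ w, E w u ∧ RLe E v w := ih u hu v
        rcases h1 with h1 | h1
        · exact absurd h1 (hno v hv)
        · exact h1) x
  exact key y

lemma rle_mem (h : ZFModel E C J) {w u : M} (hw : E w u) : RLe E w u := by
  have key := h.indD
    (P := fun v => ∀ u, E (v 0) u → RLe E (v 0) u)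
    (Df.all (P := fun _ v u => E (v 0) u → RLe E (v 0) u)
      ((Df.mem 1 0).imp (Df.rle 1 0)))
    (fun _ => w) (by
      intro w ih u hu
      change RLe E w u
      refine (rle_iff h w u).2 ?_
      intro z hz
      exact ⟨w, hu, ih z hz w hz⟩) w
  exact key u hw

lemma rle_trans (h : ZFModel E C J) {x y z : M} (h1 : RLe E x y) (h2 : RLe E y z) :
    RLe E x z := by
  have key := h.indD
    (P := fun v => ∀ y z, RLe E (v 0) y → RLe E y z → RLe E (v 0) z)
    (Df.all (P := fun _ v y => ∀ z, RLe E (v 0) y → RLe E y z → RLe E (v 0) z)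
      (Df.all (P := fun _ v z => RLe E (v 1) (v 0) → RLe E (v 0) z → RLe E (v 1) z)
        ((Df.rle 2 1).imp ((Df.rle 1 0).imp (Df.rle 2 0)))))
    (fun _ => x) (by
      intro x ih y z hxy hyz
      change RLe E x z
      have hxy' : RLe E x y := hxy
      rw [rle_iff h] at hxy' hyz ⊢
      intro u hu
      obtain ⟨v, hv, huv⟩ := hxy' u hu
      obtain ⟨w, hw, hvw⟩ := hyz v hv
      exact ⟨w, hw, ih u hu v w huv hvw⟩) x
  exact key y z h1 h2

lemma rle_bdd (h : ZFModel E C J) (x : M) : ∃ b, ∀ y, RLe E y x → E y b := by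
  have key := h.indD
    (P := fun v => ∃ b, ∀ y, RLe E y (v 0) → E y b)
    (Df.ex (P := fun _ v b => ∀ y, RLe E y (v 0) → E y b)
      (Df.all (P := fun _ v y => RLe E y (v 1) → E y (v 0))
        ((Df.rle 0 2).imp (Df.mem 0 1))))
    (fun _ => x) (by
      intro x ih
      change ∃ b, ∀ y, RLe E y x → E y b
      obtain ⟨F, hF⟩ := h.collD
        (P := fun w => ∀ y, RLe E y (w 0) → E y (w 1))
        (Df.all (P := fun _ w y => RLe E y (w 0) → E y (w 1))
          ((Df.rle 0 1).imp (Df.mem 0 2)))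
        (fun _ => x) x (fun u hu => ih u hu)
      obtain ⟨UF, hUF⟩ := h.union F
      obtain ⟨b, hb⟩ := h.power UF
      refine ⟨b, fun y hy => (hb y).2 fun v hv => ?_⟩
      obtain ⟨u, hu, hvu⟩ := (rle_iff h y x).1 hy v hv
      obtain ⟨c, hc, hc'⟩ := hF u hu
      exact (hUF v).2 ⟨c, hc, hc' v hvu⟩) x
  exact key

end Gen

section Elem

variable {j : M → M}

lemma mem_j (he : Elem E j) (x y : M) : E x y ↔ E (j x) (j y) :=
  he (.mem 0 1) (cons x (fun _ => y))

lemma sub_j (he : Elem E j) {x y : M} (hxy : ∀ z, E z x → E z y) :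
    ∀ z, E z (j x) → E z (j y) :=
  (elem_df he (P := fun v => ∀ z, E z (v 0) → E z (v 1)) (by repeat' (first | exact Df.mem _ _ | exact Df.eq _ _ | exact Df.fn _ _ | exact Df.isPr _ _ _ | refine Df.neg ?_ | refine Df.and ?_ ?_ | refine Df.or ?_ ?_ | refine Df.iff ?_ ?_ | refine Df.imp ?_ ?_ | refine Df.ex ?_ | refine Df.all ?_))
    (cons x (fun _ => y))).1 hxy

lemma rle_j (he : Elem E j) {x y : M} (hxy : RLe E x y) : RLe E (j x) (j y) :=
  (elem_df he (P := fun v => RLe E (v 0) (v 1)) (Df.rle 0 1) (cons x (fun _ => y))).1 hxy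

lemma pow_j (he : Elem E j) {x y : M} (hxy : ∀ w, E w x ↔ ∀ z, E z w → E z y) :
    ∀ w, E w (j x) ↔ ∀ z, E z w → E z (j y) :=
  (elem_df he (P := fun v => ∀ w, E w (v 0) ↔ ∀ z, E z w → E z (v 1)) (by repeat' (first | exact Df.mem _ _ | exact Df.eq _ _ | exact Df.fn _ _ | exact Df.isPr _ _ _ | refine Df.neg ?_ | refine Df.and ?_ ?_ | refine Df.or ?_ ?_ | refine Df.iff ?_ ?_ | refine Df.imp ?_ ?_ | refine Df.ex ?_ | refine Df.all ?_))
    (cons x (fun _ => y))).1 hxy

lemma her_fix (h : ZFModel E C (fun x y => j x = y)) (he : Elem E j) (x : M)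
    (hx : Her E (fun y => j y = y) x) (y : M) (hy : RLe E y x) : j y = y := by
  have key := h.indD
    (P := fun v => (∃ t, (∀ y z, E y t → E z y → E z t) ∧ E (v 0) t ∧
      ∀ y, E y t → (fun x y => j x = y) y y) → ∀ y, RLe E y (v 0) → (fun x y => j x = y) y y)
    (Df.imp (by repeat' (first | exact Df.mem _ _ | exact Df.eq _ _ | exact Df.fn _ _ | exact Df.isPr _ _ _ | refine Df.neg ?_ | refine Df.and ?_ ?_ | refine Df.or ?_ ?_ | refine Df.iff ?_ ?_ | refine Df.imp ?_ ?_ | refine Df.ex ?_ | refine Df.all ?_)) (Df.all (P := fun _ v y => RLe E y (v 0) → (fun x y => j x = y) y y)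
      ((Df.rle 0 1).imp (Df.fn 0 0))))
    (fun _ => x) (by
      intro x ih hx y hy
      obtain ⟨t, h1, h2, h3⟩ := hx
      have h2' : E x t := h2
      have hy' : RLe E y x := hy
      have ihu : ∀ u, E u x → ∀ y, RLe E y u → j y = y := by
        intro u hu
        exact ih u hu ⟨t, h1, h1 x u h2' hu, h3⟩
      have hv : ∀ v, E v y → j v = v := by
        intro v hv
        obtain ⟨u, hu, hvu⟩ := (rle_iff h y x).1 hy' v hv
        exact ihu u hu v hvu
      have hjx : j x = x := h3 x h2'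
      have hjy : RLe E (j y) x := by
        have := rle_j he hy'
        rwa [hjx] at this
      refine h.ext _ _ fun z => ⟨fun hz => ?_, fun hz => ?_⟩
      · obtain ⟨u, hu, hzu⟩ := (rle_iff h (j y) x).1 hjy z hz
        have hjz : j z = z := ihu u hu z hzu
        rw [← hjz] at hz
        exact (mem_j he z y).2 hz
      · have := (mem_j he z y).1 hz
        rwa [hv z hz] at this) x
  exact key hx y hy

end Elem

theorem hered_bounded {j : M → M} (h : ZFModel E C (fun x y => j x = y)) (he : Elem E j)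
    (hn : ∃ x, j x ≠ x) : ∃ b, ∀ x, Her E (fun y => j y = y) x → E x b := by
  obtain ⟨x₀, hx₀⟩ := hn
  obtain ⟨b, hb⟩ := rle_bdd h x₀
  refine ⟨b, fun x hx => hb x ?_⟩
  rcases rle_tot h x₀ x with h1 | ⟨u, hu, hxu⟩
  · exact absurd (her_fix h he x hx x₀ h1) hx₀
  · exact rle_trans h hxu (rle_mem h hu)

theorem cofinal {j : M → M} (h : ZFModel E C (fun x y => j x = y)) (he : Elem E j) (y : M) :
    ∃ x, E y (j x) := by
  have key := h.indD
    (P := fun v => ∃ x z, (fun x y => j x = y) x z ∧ E (v 0) z) (by repeat' (first | exact Df.mem _ _ | exact Df.eq _ _ | exact Df.fn _ _ | exact Df.isPr _ _ _ | refine Df.neg ?_ | refine Df.and ?_ ?_ | refine Df.or ?_ ?_ | refine Df.iff ?_ ?_ | refine Df.imp ?_ ?_ | refine Df.ex ?_ | refine Df.all ?_)) (fun _ => y) (by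
      intro y ih
      change ∃ x z, j x = z ∧ E y z
      obtain ⟨F, hF⟩ := h.collD
        (P := fun w => ∃ z, (fun x y => j x = y) (w 1) z ∧ E (w 0) z) (by repeat' (first | exact Df.mem _ _ | exact Df.eq _ _ | exact Df.fn _ _ | exact Df.isPr _ _ _ | refine Df.neg ?_ | refine Df.and ?_ ?_ | refine Df.or ?_ ?_ | refine Df.iff ?_ ?_ | refine Df.imp ?_ ?_ | refine Df.ex ?_ | refine Df.all ?_))
        (fun _ => y) y (fun u hu => ih u hu)
      obtain ⟨X, hX⟩ := h.union F
      obtain ⟨Pw, hPw⟩ := h.power X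
      refine ⟨Pw, j Pw, rfl, (pow_j he hPw y).2 ?_⟩
      intro u hu
      obtain ⟨x, hxF, z, hz1, hz2⟩ := hF u hu
      have hz1' : j x = z := hz1
      rw [← hz1'] at hz2
      exact sub_j he (fun w hw => (hX w).2 ⟨x, hxF, hw⟩) u hz2) y
  obtain ⟨x, z, h1, h2⟩ := key
  have h1' : j x = z := h1
  exact ⟨x, by rw [h1']; exact h2⟩

end Pool.Agent.H46.RE
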