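/-
FIN : assembly.  An elementary j : (V,∈,D) → (V,∈,j(D)) is not definable over (V,∈,j(D)).
-/
import Mathlib
import Pool.Agent.H46.RE.Pair
import Pool.Agent.H46.RE.Rank
import Pool.Agent.H46.RE.Gaif
import Pool.Agent.H46.RE.DefSat

set_option autoImplicit false

namespace Pool.Agent.H46.RE

universe u
variable {M : Type u} {E : M → M → Prop} {C D : M → Prop} {J : M → M → Prop}

lemma Fin_imgCl (E : M → M → Prop) (j : M → M) (D : M → Prop) :
    D1 E D (fun x y => j x = y) (fun v => ImgCl E j D (v 0)) := by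
  have : D1 E D (fun x y => j x = y) (fun v => ∃ a b, (∀ x, E x b ↔ E x a ∧ D x) ∧
      ∃ c, (fun x y => j x = y) b c ∧ E (v 0) c) := by
    refine Df.ex (Df.ex (Df.and (Df.all ?_) (Df.ex (Df.and (Df.fn 1 0) (Df.mem _ _)))))
    exact (Df.mem _ _).iff ((Df.mem _ _).and (Df.cl _))
  refine this.congr fun k v => ?_
  unfold ImgCl
  refine exists_congr fun a => exists_congr fun b => and_congr_right fun _ => ?_
  constructor
  · rintro ⟨c, rfl, h⟩; exact h
  · intro h; exact ⟨_, rfl, h⟩

lemma Fin_cons_tail (w : ℕ → M) : cons (w 0) (fun n => w (n + 1)) = w := by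
  funext n; cases n <;> rfl

lemma Fin_satTr {X : M → M → Prop} (hX : D1 E C J (fun v => X (v 0) (v 1))) (φ : Fml) :
    D1 E C J (fun v => Sat E (X (v 0)) (fun _ _ => False) φ (fun n => v (n + 1))) := by
  induction φ with
  | mem i k => exact Df.mem _ _
  | eq i k => exact Df.eq _ _
  | cl i => exact Df.at2 (P := fun _ => X) hX 0 (i + 1)
  | fn i k => exact Df.bot
  | neg φ ih => exact ih.neg
  | and φ ψ ih ih' => exact ih.and ih'
  | all φ ih =>
    refine Df.all (P := fun _ v x => Sat E (X (v 0)) (fun _ _ => False) φ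
      (cons x (fun n => v (n + 1)))) ?_
    refine (ih.ren (fun n => match n with | 0 => 1 | 1 => 0 | k + 2 => k + 2)).congr fun _ w => ?_
    have : (fun n => w (match n + 1 with | 0 => 1 | 1 => 0 | k + 2 => k + 2)) =
        cons (w 0) (fun n => w (n + 1 + 1)) := by
      funext n; cases n <;> rfl
    simp only [this]

lemma Fin_transfer {X : M → M → Prop} (h : ZFModel E C J)
    (hX : D1 E C J (fun v => X (v 0) (v 1))) (p : M) :
    ZFModel E (X p) (fun _ _ => False) where
  ext := h.ext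
  pair := h.pair
  union := h.union
  power := h.power
  infinity := h.infinity
  found := by
    intro φ v hx
    have hP := (Fin_satTr hX φ).ren (fun n => match n with | 0 => 1 | 1 => 0 | k + 2 => k + 2)
    have key : ∀ x, Sat E (X ((cons x (cons p v)) 1)) (fun _ _ => False) φ
        (fun n => (cons x (cons p v)) (match n + 1 with | 0 => 1 | 1 => 0 | k + 2 => k + 2)) ↔
        Sat E (X p) (fun _ _ => False) φ (cons x v) := by
      intro x
      have : (fun n => (cons x (cons p v)) (match n + 1 with | 0 => 1 | 1 => 0 | k + 2 => k + 2)) =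
          cons x v := by funext n; cases n <;> rfl
      rw [this]; rfl
    obtain ⟨x, hx1, hx2⟩ := h.foundD hP (cons p v) (by
      obtain ⟨x, hx⟩ := hx
      exact ⟨x, (key x).2 hx⟩)
    exact ⟨x, (key x).1 hx1, fun y hy hh => hx2 y hy ((key y).2 hh)⟩
  sep := by
    intro φ v a
    have hP := (Fin_satTr hX φ).ren (fun n => match n with | 0 => 1 | 1 => 0 | k + 2 => k + 2)
    have key : ∀ x, Sat E (X ((cons x (cons p v)) 1)) (fun _ _ => False) φ
        (fun n => (cons x (cons p v)) (match n + 1 with | 0 => 1 | 1 => 0 | k + 2 => k + 2)) ↔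
        Sat E (X p) (fun _ _ => False) φ (cons x v) := by
      intro x
      have : (fun n => (cons x (cons p v)) (match n + 1 with | 0 => 1 | 1 => 0 | k + 2 => k + 2)) =
          cons x v := by funext n; cases n <;> rfl
      rw [this]; rfl
    obtain ⟨b, hb⟩ := h.sepD hP (cons p v) a
    exact ⟨b, fun x => (hb x).trans (and_congr_right fun _ => key x)⟩
  coll := by
    intro φ v a hx
    have hP := (Fin_satTr hX φ).ren
      (fun n => match n with | 0 => 2 | 1 => 0 | 2 => 1 | k + 3 => k + 3)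
    have key : ∀ x y, Sat E (X ((cons x (cons y (cons p v))) 2)) (fun _ _ => False) φ
        (fun n => (cons x (cons y (cons p v)))
          (match n + 1 with | 0 => 2 | 1 => 0 | 2 => 1 | k + 3 => k + 3)) ↔
        Sat E (X p) (fun _ _ => False) φ (cons x (cons y v)) := by
      intro x y
      have : (fun n => (cons x (cons y (cons p v)))
          (match n + 1 with | 0 => 2 | 1 => 0 | 2 => 1 | k + 3 => k + 3)) =
          cons x (cons y v) := by
        funext n
        rcases n with _ | _ | n <;> rfl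
      rw [this]; rfl
    obtain ⟨b, hb⟩ := h.collD hP (cons p v) a (fun x hxa => by
      obtain ⟨y, hy⟩ := hx x hxa
      exact ⟨y, (key x y).2 hy⟩)
    refine ⟨b, fun x hxa => ?_⟩
    obtain ⟨y, hyb, hy⟩ := hb x hxa
    exact ⟨y, hyb, (key x y).1 hy⟩

lemma Fin_nth_uniq (h : ZFModel E C J) (n : ℕ) : ∀ {s x y : M}, Nth E n s x → Nth E n s y → x = y := by
  induction n with
  | zero =>
    rintro s x y ⟨r, hr⟩ ⟨r', hr'⟩
    exact (isPr_inj h hr hr').1
  | succ n ih =>
    rintro s x y ⟨a, r, hr, hx⟩ ⟨b, r', hr', hy⟩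
    have := (isPr_inj h hr hr').2
    subst this
    exact ih hx hy

lemma Fin_satM (h : ZFModel E C J) (U : M → Prop) (φ : Fml) : ∃ N : ℕ, ∀ (s : M) (v : ℕ → M),
    (∀ k < N, Nth E k s (v k)) → (SatM E U φ s ↔ Sat E U (fun _ _ => False) φ v) := by
  induction φ with
  | mem i k =>
    refine ⟨max i k + 1, fun s v hv => ?_⟩
    have hi := hv i (by omega)
    have hk := hv k (by omega)
    constructor
    · rintro ⟨x, y, hx, hy, hxy⟩
      rw [Fin_nth_uniq h i hx hi, Fin_nth_uniq h k hy hk] at hxy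
      exact hxy
    · intro hh
      exact ⟨v i, v k, hi, hk, hh⟩
  | eq i k =>
    refine ⟨max i k + 1, fun s v hv => ?_⟩
    have hi := hv i (by omega)
    have hk := hv k (by omega)
    constructor
    · rintro ⟨x, y, hx, hy, hxy⟩
      rw [Fin_nth_uniq h i hx hi, Fin_nth_uniq h k hy hk] at hxy
      exact hxy
    · intro hh
      exact ⟨v i, v k, hi, hk, hh⟩
  | cl i =>
    refine ⟨i + 1, fun s v hv => ?_⟩
    have hi := hv i (by omega)
    constructor
    · rintro ⟨x, hx, hxy⟩
      rw [Fin_nth_uniq h i hx hi] at hxy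
      exact hxy
    · intro hh
      exact ⟨v i, hi, hh⟩
  | fn i k => exact ⟨0, fun s v _ => Iff.rfl⟩
  | neg φ ih =>
    obtain ⟨N, hN⟩ := ih
    exact ⟨N, fun s v hv => not_congr (hN s v hv)⟩
  | and φ ψ ih ih' =>
    obtain ⟨N, hN⟩ := ih
    obtain ⟨N', hN'⟩ := ih'
    exact ⟨max N N', fun s v hv => and_congr (hN s v fun k hk => hv k (by omega))
      (hN' s v fun k hk => hv k (by omega))⟩
  | all φ ih =>
    obtain ⟨N, hN⟩ := ih
    refine ⟨N, fun s v hv => ?_⟩
    have key : ∀ x t, IsPr E x s t → (SatM E U φ t ↔ Sat E U (fun _ _ => False) φ (cons x v)) := by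
      intro x t ht
      refine hN t (cons x v) fun k hk => ?_
      rcases k with _ | k
      · exact ⟨s, ht⟩
      · exact ⟨x, s, ht, hv k (by omega)⟩
    constructor
    · intro hh x
      obtain ⟨t, ht⟩ := isPr_ex h x s
      exact (key x t ht).1 (hh x t ht)
    · intro hh x t ht
      exact (key x t ht).2 (hh x)

lemma Fin_stack (h : ZFModel E C J) (N : ℕ) : ∀ v : ℕ → M, ∃ p, ∀ k < N, Nth E k p (v k) := by
  induction N with
  | zero => intro v; exact ⟨v 0, fun k hk => absurd hk (by omega)⟩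
  | succ N ih =>
    intro v
    obtain ⟨p, hp⟩ := ih (fun n => v (n + 1))
    obtain ⟨q, hq⟩ := isPr_ex h (v 0) p
    refine ⟨q, fun k hk => ?_⟩
    rcases k with _ | k
    · exact ⟨p, hq⟩
    · exact ⟨v 0, p, hq, hp k (by omega)⟩

lemma Fin_nth_map {i : M → M} (hi : Cand E C (fun x y => i x = y)) (n : ℕ) :
    ∀ {s x : M}, Nth E n s x → Nth E n (i s) (i x) := by
  induction n with
  | zero =>
    rintro s x ⟨r, hr⟩
    exact ⟨i r, cand_rel hi .pr (a := x) (b := r) (c := s) (d := s) hr⟩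
  | succ n ih =>
    rintro s x ⟨a, r, hr, hx⟩
    exact ⟨i a, i r, cand_rel hi .pr (a := a) (b := r) (c := s) (d := s) hr, ih hx⟩

/-- a candidate is elementary from `(M, E, D)` to `(M, E, C)` -/
lemma Fin_elem (hC : ZFModel E C (fun _ _ => False)) (hD : ZFModel E D (fun _ _ => False))
    {i : M → M} (hi : Cand E C (fun x y => i x = y)) (hDC : ∀ x, D x ↔ C (i x)) (φ : Fml)
    (v : ℕ → M) : Sat E D (fun _ _ => False) φ v ↔
      Sat E C (fun _ _ => False) φ (fun n => i (v n)) := by
  obtain ⟨N, hN⟩ := Fin_satM hC D φ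
  obtain ⟨N', hN'⟩ := Fin_satM hC C φ
  obtain ⟨s, hs⟩ := Fin_stack hC (max N N') v
  rw [← hN s v fun k hk => hs k (by omega), gaifman hC hD hi hDC φ s,
    hN' (i s) (fun n => i (v n)) fun k hk => Fin_nth_map hi k (hs k (by omega))]

lemma Fin_cand_mem {i : M → M} (hi : Cand E C (fun x y => i x = y)) (a b : M) :
    E (i a) (i b) ↔ E a b := by
  constructor
  · intro h
    by_contra hc
    exact cand_rel hi .nmem (a := a) (b := b) (c := a) (d := a) hc h
  · intro h
    exact cand_rel hi .mem (a := a) (b := b) (c := a) (d := a) h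

lemma Fin_cand_inj {i : M → M} (hi : Cand E C (fun x y => i x = y)) {a b : M} (h : i a = i b) :
    a = b := by
  by_contra hc
  exact cand_rel hi .ne (a := a) (b := b) (c := a) (d := a) hc h

/-- the set of all hereditarily fixed sets is fixed by all candidates -/
lemma Fin_fix (hC : ZFModel E C (fun _ _ => False)) (φ : Fml) {f : M}
    (hf : ∀ y, E y f ↔ Her E (AllFix E C φ) y) : AllFix E C φ f := by
  intro p hp
  -- the function
  choose i hi using hp.1
  have hI : Ip E C φ p = fun x y => i x = y := by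
    funext x y
    refine propext ⟨fun h => ?_, ?_⟩
    · exact hp.2.1 x _ _ (hi x) h
    · rintro rfl; exact hi x
  rw [hI] at hp ⊢
  have hfx : ∀ y, E y f → i y = y := by
    intro y hy
    obtain ⟨t, _, ht, hfix⟩ := (hf y).1 hy
    have h1 : Ip E C φ p y y := hfix y ht p (by rw [hI]; exact hp)
    rw [hI] at h1
    exact h1
  have hDC : ∀ x, Dp E C φ p x ↔ C (i x) := by
    intro x
    unfold Dp
    rw [hI]
    constructor
    · rintro ⟨y, rfl, h⟩; exact h
    · intro h; exact ⟨_, rfl, h⟩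
  have hD : ZFModel E (Dp E C φ p) (fun _ _ => False) := by
    refine Fin_transfer (X := Dp E C φ) hC ?_ p
    exact Df.dp (U := fun _ : Unit => C) (J := fun _ : Unit => fun _ _ => False) φ 0 1
  -- the formula for `f`
  obtain ⟨ψ, hψ⟩ := Df.final (E := E) (U := fun k : (M → Prop) => k)
    (J := fun _ : (M → Prop) => fun _ _ => False) φ 0
  obtain ⟨χ, hχ⟩ := Df.ex (E := E) (U := fun k : (M → Prop) => k)
    (J := fun _ : (M → Prop) => fun _ _ => False)
    (P := fun k _ x => ∀ y, E y x ↔ Her E (AllFix E k φ) y) ⟨ψ, hψ⟩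
  have h1 : Sat E C (fun _ _ => False) χ (fun _ => i f) := (hχ C _).2 ⟨f, hf⟩
  have h2 : Sat E (Dp E C φ p) (fun _ _ => False) χ (fun _ => f) :=
    (Fin_elem hC hD hp hDC χ (fun _ => f)).2 h1
  obtain ⟨g, hg⟩ := (hχ (Dp E C φ p) _).1 h2
  have h3 : Sat E (Dp E C φ p) (fun _ _ => False) ψ (fun _ => g) :=
    (hψ (Dp E C φ p) (fun _ => g)).2 hg
  have h4 := (hψ C _).1 ((Fin_elem hC hD hp hDC ψ (fun _ => g)).1 h3)
  have hig : i g = f := hC.ext _ _ fun z => (h4 z).trans (hf z).symm
  have hgf : g = f := by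
    refine hC.ext _ _ fun z => ⟨fun hz => ?_, fun hz => ?_⟩
    · have h5 : E (i z) f := by rw [← hig]; exact (Fin_cand_mem hp z g).2 hz
      have h6 : i z = z := Fin_cand_inj hp (hfx _ h5)
      rwa [h6] at h5
    · have h5 := hfx z hz
      rw [← Fin_cand_mem hp, h5, hig]
      exact hz
  rw [hgf] at hig
  exact hig

lemma Fin_false (hC : ZFModel E C (fun _ _ => False)) (φ : Fml) {f : M}
    (hf : ∀ y, E y f ↔ Her E (AllFix E C φ) y) : False := by
  have h1 := Fin_fix hC φ hf
  obtain ⟨sf, hsf⟩ := hC.pair f f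
  obtain ⟨t, ht⟩ := ex_union2 hC f sf
  have ht' : ∀ x, E x t ↔ E x f ∨ x = f := by
    intro x; rw [ht, hsf]; simp
  have htr : ∀ y z, E y f → E z y → E z f := by
    intro y z hy hz
    obtain ⟨t', h2, h3, h4⟩ := (hf y).1 hy
    exact (hf z).2 ⟨t', h2, h2 y z h3 hz, h4⟩
  refine hC.irrefl f ((hf f).2 ⟨t, ?_, (ht' f).2 (Or.inr rfl), ?_⟩)
  · intro y z hy hz
    rcases (ht' y).1 hy with h | h
    · exact (ht' z).2 (Or.inl (htr y z h hz))
    · subst h
      exact (ht' z).2 (Or.inl hz)
  · intro y hy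
    rcases (ht' y).1 hy with h | h
    · obtain ⟨t', _, h3, h4⟩ := (hf y).1 h
      exact h4 y h3
    · rw [h]; exact h1

theorem main {j : M → M} (h : ZFModel E D (fun x y => j x = y)) (he : Elem E j)
    (hn : ∃ x, j x ≠ x) : ¬ ∃ (φ : Fml) (v : ℕ → M), ∀ x y,
      j x = y ↔ Sat E (ImgCl E j D) (fun _ _ => False) φ (cons x (cons y v)) := by
  rintro ⟨φ, v, hφ⟩
  set C : M → Prop := ImgCl E j D with hCdef
  have hC : ZFModel E C (fun _ _ => False) := by
    refine Fin_transfer (X := fun _ => C) h ?_ (v 0)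
    exact Df.at1 (P := fun _ => C) (Fin_imgCl E j D) 1
  -- basic properties of `j`
  have hmem : ∀ a b, E a b ↔ E (j a) (j b) := fun a b =>
    elem_df he (P := fun v => E (v 0) (v 1)) (Df.mem 0 1) (cons a (fun _ => b))
  have hCj : ∀ x, C (j x) ↔ D x := by
    intro x
    constructor
    · rintro ⟨a, b, hb, hx⟩
      exact ((hb x).1 ((hmem x b).2 hx)).2
    · intro hx
      obtain ⟨a, ha⟩ := h.pair x x
      obtain ⟨b, hb⟩ := h.sepD (P := fun v => D (v 0)) (Df.cl 0) (fun _ => x) a
      exact ⟨a, b, hb, (hmem x b).1 ((hb x).2 ⟨(ha x).2 (Or.inl rfl), hx⟩)⟩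
  have hCa : ∀ a b, (∀ x, E x b ↔ E x a ∧ D x) → ∀ y, E y (j b) ↔ E y (j a) ∧ C y := by
    intro a b hb y
    constructor
    · intro hy
      refine ⟨?_, a, b, hb, hy⟩
      have := (elem_df he (P := fun v => ∀ x, E x (v 1) → E x (v 0)) (by (repeat' (first | exact Df.mem _ _ | exact Df.eq _ _ | exact Df.cl _ | exact Df.fn _ _ | exact Df.isPr _ _ _ | exact Df.top | exact Df.bot | refine Df.neg ?_ | refine Df.and ?_ ?_ | refine Df.or ?_ ?_ | refine Df.iff ?_ ?_ | refine Df.imp ?_ ?_ | refine Df.ex ?_ | refine Df.all ?_)))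
        (cons a (fun _ => b))).1 (fun x hx => ((hb x).1 hx).1)
      exact this y hy
    · rintro ⟨hy, a', b', hb', hy'⟩
      have := (elem_df he (P := fun v => ∀ x, E x (v 0) → E x (v 2) → E x (v 1)) (by (repeat' (first | exact Df.mem _ _ | exact Df.eq _ _ | exact Df.cl _ | exact Df.fn _ _ | exact Df.isPr _ _ _ | exact Df.top | exact Df.bot | refine Df.neg ?_ | refine Df.and ?_ ?_ | refine Df.or ?_ ?_ | refine Df.iff ?_ ?_ | refine Df.imp ?_ ?_ | refine Df.ex ?_ | refine Df.all ?_)))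
        (cons a (cons b (fun _ => b')))).1
        (fun x hx hx' => (hb x).2 ⟨hx, ((hb' x).1 hx').2⟩)
      exact this y hy hy'
  -- the parameter
  obtain ⟨N, hN⟩ := Fin_satM hC C φ
  obtain ⟨p, hp⟩ := Fin_stack hC N v
  have hIp : Ip E C φ p = fun x y => j x = y := by
    funext x y
    have key : ∀ q s, IsPr E y p q → IsPr E x q s → (SatM E C φ s ↔ j x = y) := by
      intro q s hq hs
      rw [hφ x y]
      refine hN s _ fun k hk => ?_
      rcases k with _ | _ | k
      · exact ⟨q, hs⟩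
      · exact ⟨x, q, hs, p, hq⟩
      · exact ⟨x, q, hs, y, p, hq, hp k (by omega)⟩
    refine propext ⟨?_, fun hxy => ?_⟩
    · rintro ⟨q, s, hq, hs, hsat⟩
      exact (key q s hq hs).1 hsat
    · obtain ⟨q, hq⟩ := isPr_ex hC y p
      obtain ⟨s, hs⟩ := isPr_ex hC x q
      exact ⟨q, s, hq, hs, (key q s hq hs).2 hxy⟩
  have hcand : Cand E C (Ip E C φ p) := by
    rw [hIp]
    refine ⟨fun x => ⟨_, rfl⟩, fun x y z h1 h2 => h1.symm.trans h2, ?_, ?_, ?_⟩
    · rintro t a b c d _ _ _ _ rfl rfl rfl rfl hr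
      exact (elem_df he (P := fun v => Rel E t (v 0) (v 1) (v 2) (v 3))
        (Df.rel t 0 1 2 3) (cons a (cons b (cons c (fun _ => d))))).1 hr
    · intro y
      obtain ⟨x, hx⟩ := cofinal h he y
      exact ⟨x, _, rfl, hx⟩
    · rintro a b _ _ rfl rfl hb
      refine hCa a b fun x => (hb x).trans (and_congr_right fun _ => ?_)
      rw [← hCj]
      constructor
      · rintro ⟨y, rfl, hy⟩; exact hy
      · intro hy; exact ⟨_, rfl, hy⟩
  -- the set of hereditarily fixed sets
  obtain ⟨b, hb⟩ := hered_bounded h he hn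
  obtain ⟨f, hf⟩ := hC.sepD (P := fun v => Her E (AllFix E C φ) (v 0))
    (Df.her (U := fun _ : Unit => C) (J := fun _ : Unit => fun _ _ => False) φ 0) (fun _ => b) b
  refine Fin_false hC φ (f := f) fun y => (hf y).trans ⟨fun hh => hh.2, fun hh => ⟨hb y ?_, hh⟩⟩
  obtain ⟨t, h1, h2, h3⟩ := hh
  refine ⟨t, h1, h2, fun z hz => ?_⟩
  have := h3 z hz p hcand
  rw [hIp] at this
  exact this

end Pool.Agent.H46.RE
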