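/-
PAR : classes definable with parameters may be added to the language.
-/
import Mathlib
import Pool.Agent.H46.RE.Base

set_option autoImplicit false

namespace Pool.Agent.H46.RE

universe u
variable {M : Type u} {E : M → M → Prop} {C X : M → Prop} {J : M → M → Prop}

/-- interleaving of two sequences -/
def il (v w : ℕ → M) (n : ℕ) : M := if n % 2 = 0 then v (n / 2) else w (n / 2)

lemma il_even (v w : ℕ → M) (n : ℕ) : il v w (2 * n) = v n := by
  unfold il
  rw [if_pos (by omega)]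
  congr 1
  omega

lemma il_odd (v w : ℕ → M) (n : ℕ) : il v w (2 * n + 1) = w n := by
  unfold il
  rw [if_neg (by omega)]
  congr 1
  omega

/-- renaming for one quantifier -/
def rho (n : ℕ) : ℕ := if n = 0 then 0 else if n % 2 = 0 then n - 1 else n + 1

lemma il_cons (x : M) (v w : ℕ → M) :
    (fun n => cons x (il v w) (rho n)) = il (cons x v) w := by
  funext n
  unfold rho
  by_cases h0 : n = 0
  · subst h0; rfl
  rw [if_neg h0]
  rcases Nat.even_or_odd' n with ⟨k, rfl | rfl⟩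
  · rw [if_pos (by omega), il_even]
    obtain ⟨m, rfl⟩ : ∃ m, k = m + 1 := ⟨k - 1, by omega⟩
    have : 2 * (m + 1) - 1 = 2 * m + 1 := by omega
    rw [this, cons_succ, cons_succ, il_even]
  · rw [if_neg (by omega), il_odd, cons_succ, il_odd]

lemma Par_tr {θ : Fml} {w : ℕ → M} (hX : ∀ x, X x ↔ Sat E C J θ (cons x w)) (φ : Fml) :
    ∃ ψ : Fml, ∀ v, Sat E C J ψ (il v w) ↔ Sat E X J φ v := by
  induction φ with
  | mem i k => exact ⟨.mem (2 * i) (2 * k), fun v => by simp only [Sat, il_even]⟩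
  | eq i k => exact ⟨.eq (2 * i) (2 * k), fun v => by simp only [Sat, il_even]⟩
  | cl i =>
    refine ⟨θ.ren (fun n => if n = 0 then 2 * i else 2 * (n - 1) + 1), fun v => ?_⟩
    rw [Sat_ren]
    have : (fun n => il v w (if n = 0 then 2 * i else 2 * (n - 1) + 1)) = cons (v i) w := by
      funext n
      rcases n with _ | n
      · simp only [if_true, il_even, cons_zero]
      · rw [if_neg (by omega)]
        have : n + 1 - 1 = n := by omega
        rw [this, il_odd, cons_succ]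
    rw [this]
    exact (hX _).symm
  | fn i k => exact ⟨.fn (2 * i) (2 * k), fun v => by simp only [Sat, il_even]⟩
  | neg φ ih =>
    obtain ⟨ψ, hψ⟩ := ih
    exact ⟨.neg ψ, fun v => not_congr (hψ v)⟩
  | and φ φ' ih ih' =>
    obtain ⟨ψ, hψ⟩ := ih
    obtain ⟨ψ', hψ'⟩ := ih'
    exact ⟨.and ψ ψ', fun v => and_congr (hψ v) (hψ' v)⟩
  | all φ ih =>
    obtain ⟨ψ, hψ⟩ := ih
    refine ⟨.all (ψ.ren rho), fun v => forall_congr' fun x => ?_⟩
    rw [Sat_ren, il_cons, hψ]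

lemma Par_tr1 {θ : Fml} {w : ℕ → M} (hX : ∀ x, X x ↔ Sat E C J θ (cons x w)) (φ : Fml) :
    ∃ ψ : Fml, ∀ x v, Sat E C J ψ (cons x (il v w)) ↔ Sat E X J φ (cons x v) := by
  obtain ⟨ψ, hψ⟩ := Par_tr hX φ
  refine ⟨ψ.ren rho, fun x v => ?_⟩
  rw [Sat_ren, il_cons, hψ]

lemma Par_tr2 {θ : Fml} {w : ℕ → M} (hX : ∀ x, X x ↔ Sat E C J θ (cons x w)) (φ : Fml) :
    ∃ ψ : Fml, ∀ x y v, Sat E C J ψ (cons x (cons y (il v w))) ↔
      Sat E X J φ (cons x (cons y v)) := by
  obtain ⟨ψ, hψ⟩ := Par_tr1 hX φ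
  refine ⟨ψ.ren (lift rho), fun x y v => ?_⟩
  rw [Sat_ren]
  have : (fun n => cons x (cons y (il v w)) (lift rho n)) = cons x (il (cons y v) w) := by
    funext n
    rcases n with _ | n
    · rfl
    · have := congrFun (il_cons y v w) n
      simp only [lift, cons_succ]
      exact this
  rw [this, hψ]

theorem Par_model (h : ZFModel E C J) {θ : Fml} {w : ℕ → M}
    (hX : ∀ x, X x ↔ Sat E C J θ (cons x w)) : ZFModel E X J where
  ext := h.ext
  pair := h.pair
  union := h.union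
  power := h.power
  infinity := h.infinity
  found φ v hx := by
    obtain ⟨ψ, hψ⟩ := Par_tr1 hX φ
    obtain ⟨x, h1, h2⟩ := h.found ψ (il v w) (by
      obtain ⟨x, hx⟩ := hx
      exact ⟨x, (hψ x v).2 hx⟩)
    exact ⟨x, (hψ x v).1 h1, fun y hy hh => h2 y hy ((hψ y v).2 hh)⟩
  sep φ v a := by
    obtain ⟨ψ, hψ⟩ := Par_tr1 hX φ
    obtain ⟨b, hb⟩ := h.sep ψ (il v w) a
    exact ⟨b, fun x => (hb x).trans (and_congr_right fun _ => hψ x v)⟩
  coll φ v a hx := by
    obtain ⟨ψ, hψ⟩ := Par_tr2 hX φ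
    obtain ⟨b, hb⟩ := h.coll ψ (il v w) a (fun x hxa => by
      obtain ⟨y, hy⟩ := hx x hxa
      exact ⟨y, (hψ x y v).2 hy⟩)
    refine ⟨b, fun x hxa => ?_⟩
    obtain ⟨y, hyb, hy⟩ := hb x hxa
    exact ⟨y, hyb, (hψ x y v).1 hy⟩

end Pool.Agent.H46.RE
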